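import Pool.Agent.Helper17.CommC1.Defs

open Set Filter Topology Real

namespace CommC1

theorem gam_eq (u : ℝ) : gam u = sin (2 * π * u) ^ 2 + (|sin (2 * π * u)| - cos (2 * π * u)) ^ 2 := by
  unfold gam
  have h := sin_sq_add_cos_sq (2 * π * u)
  have h2 : |sin (2 * π * u)| ^ 2 = sin (2 * π * u) ^ 2 := sq_abs _
  nlinarith [h, h2]

theorem gam_pos (u : ℝ) : 0 < gam u := by
  rw [gam_eq]
  have h := sin_sq_add_cos_sq (2 * π * u)
  rcases eq_or_ne (sin (2 * π * u)) 0 with h0 | h0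
  · rw [h0] at h ⊢
    simp only [abs_zero]
    nlinarith [h]
  · have : 0 < sin (2 * π * u) ^ 2 := by positivity
    have h3 : 0 ≤ (|sin (2 * π * u)| - cos (2 * π * u)) ^ 2 := sq_nonneg _
    linarith

theorem gam_le (u : ℝ) : gam u ≤ 4 := by
  unfold gam
  have h := sin_sq_add_cos_sq (2 * π * u)
  have h2 : |sin (2 * π * u)| ^ 2 = sin (2 * π * u) ^ 2 := sq_abs _
  nlinarith [sq_nonneg (|sin (2 * π * u)| + cos (2 * π * u)), sq_nonneg (cos (2 * π * u))]

theorem abs_gam_sub_one_le (u : ℝ) : |gam u - 1| ≤ 3 * |sin (2 * π * u)| := by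
  unfold gam
  have h1 : |sin (2 * π * u)| ≤ 1 := abs_sin_le_one _
  have h2 : |cos (2 * π * u)| ≤ 1 := abs_cos_le_one _
  have h3 : |sin (2 * π * u)| ^ 2 = sin (2 * π * u) ^ 2 := sq_abs _
  have h0 : 0 ≤ |sin (2 * π * u)| := abs_nonneg _
  rw [← h3]
  have h4 : 1 + |sin (2 * π * u)| ^ 2 - 2 * (|sin (2 * π * u)| * cos (2 * π * u)) - 1
      = |sin (2 * π * u)| * (|sin (2 * π * u)| - 2 * cos (2 * π * u)) := by ring
  rw [h4, abs_mul, abs_abs]
  have h5 : abs (|sin (2 * π * u)| - 2 * cos (2 * π * u)) ≤ 3 := by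
    rw [abs_le] at h2 ⊢
    constructor <;> linarith [h2.1, h2.2]
  nlinarith [h5]

theorem continuous_gam : Continuous gam := by
  unfold gam
  fun_prop

theorem sin_add_one (u : ℝ) : sin (2 * π * (u + 1)) = sin (2 * π * u) := by
  rw [mul_add, mul_one, sin_add_two_pi]

theorem cos_add_one (u : ℝ) : cos (2 * π * (u + 1)) = cos (2 * π * u) := by
  rw [mul_add, mul_one, cos_add_two_pi]

theorem gam_add_one (u : ℝ) : gam (u + 1) = gam u := by
  unfold gam
  rw [sin_add_one, cos_add_one]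

theorem ghat_add_one (u : ℝ) : ghat (u + 1) = ghat u + 1 := by
  unfold ghat
  rw [sin_add_one, cos_add_one]
  ring

theorem X_pos (u : ℝ) : 1 / 2 ≤ 1 - |sin (2 * π * u)| * cos (2 * π * u) := by
  have h := sin_sq_add_cos_sq (2 * π * u)
  have h2 : |sin (2 * π * u)| ^ 2 = sin (2 * π * u) ^ 2 := sq_abs _
  nlinarith [sq_nonneg (|sin (2 * π * u)| - cos (2 * π * u))]

theorem XY_sq (u : ℝ) : (1 - |sin (2 * π * u)| * cos (2 * π * u)) ^ 2 +
    (sin (2 * π * u) * |sin (2 * π * u)|) ^ 2 = gam u := by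
  unfold gam
  have h := sin_sq_add_cos_sq (2 * π * u)
  have h2 : |sin (2 * π * u)| ^ 2 = sin (2 * π * u) ^ 2 := sq_abs _
  have h3 : cos (2 * π * u) ^ 2 = 1 - sin (2 * π * u) ^ 2 := by linarith
  calc _ = 1 - 2 * (|sin (2 * π * u)| * cos (2 * π * u)) +
        |sin (2 * π * u)| ^ 2 * cos (2 * π * u) ^ 2 +
        sin (2 * π * u) ^ 2 * |sin (2 * π * u)| ^ 2 := by ring
    _ = _ := by rw [h2, h3]; ring

theorem one_add_div_sq (a b : ℝ) (hb : b ≠ 0) : 1 + (a / b) ^ 2 = (b ^ 2 + a ^ 2) / b ^ 2 := by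
  field_simp

theorem hasDerivAt_ghat_of_ne (u ε : ℝ) (hε : ε ^ 2 = 1)
    (he : ∀ᶠ v in 𝓝 u, |sin (2 * π * v)| = ε * sin (2 * π * v)) :
    HasDerivAt ghat (1 / gam u) u := by
  have hπ : (0 : ℝ) < 2 * π := by positivity
  have hlin : HasDerivAt (fun v : ℝ => 2 * π * v) (2 * π) u := by
    simpa using (hasDerivAt_id u).const_mul (2 * π)
  have hs : HasDerivAt (fun v : ℝ => sin (2 * π * v)) (cos (2 * π * u) * (2 * π)) u := hlin.sin
  have hc : HasDerivAt (fun v : ℝ => cos (2 * π * v)) (-sin (2 * π * u) * (2 * π)) u := hlin.cos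
  have hN : HasDerivAt (fun v : ℝ => sin (2 * π * v) * (ε * sin (2 * π * v)))
      (cos (2 * π * u) * (2 * π) * (ε * sin (2 * π * u)) +
        sin (2 * π * u) * (ε * (cos (2 * π * u) * (2 * π)))) u := hs.mul (hs.const_mul ε)
  have hD : HasDerivAt (fun v : ℝ => 1 - ε * sin (2 * π * v) * cos (2 * π * v))
      (-(ε * (cos (2 * π * u) * (2 * π)) * cos (2 * π * u) +
        ε * sin (2 * π * u) * (-sin (2 * π * u) * (2 * π)))) u := by
    have := ((hs.const_mul ε).mul hc).const_sub 1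
    exact this
  have habs : |sin (2 * π * u)| = ε * sin (2 * π * u) := he.self_of_nhds
  have hX := X_pos u
  rw [habs] at hX
  have hX0 : (1 - ε * sin (2 * π * u) * cos (2 * π * u)) ≠ 0 := by
    intro h; rw [h] at hX; norm_num at hX
  have hQ := (hN.div hD hX0).arctan.div_const (2 * π)
  have hg := (hasDerivAt_id u).add hQ
  have hev : ghat =ᶠ[𝓝 u] fun v => id v + arctan ((fun v : ℝ => sin (2 * π * v) * (ε * sin (2 * π * v))) v /
      (fun v : ℝ => 1 - ε * sin (2 * π * v) * cos (2 * π * v)) v) / (2 * π) := by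
    filter_upwards [he] with v hv
    simp only [ghat, id]
    rw [hv]
  refine (hg.congr_of_eventuallyEq hev).congr_deriv ?_
  have hgam := XY_sq u
  rw [habs] at hgam
  have hgp := gam_pos u
  have hsc := sin_sq_add_cos_sq (2 * π * u)
  set S := sin (2 * π * u) with hS
  set C := cos (2 * π * u) with hC
  have hgam' : gam u = 1 + S ^ 2 - 2 * (ε * S * C) := by
    unfold gam
    rw [← hS, ← hC, habs]
  have hDD : (1 - ε * S * C) ^ 2 + (S * (ε * S)) ^ 2 = gam u := hgam
  have h1 : 1 + (S * (ε * S) / (1 - ε * S * C)) ^ 2 = gam u / (1 - ε * S * C) ^ 2 := by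
    rw [← hDD]
    exact one_add_div_sq _ _ hX0
  simp only [Pi.div_apply]
  rw [h1]
  have hg0 : gam u ≠ 0 := hgp.ne'
  have hπ0 : (2 * π : ℝ) ≠ 0 := hπ.ne'
  have key : (C * (2 * π) * (ε * S) + S * (ε * (C * (2 * π)))) * (1 - ε * S * C) -
      S * (ε * S) * (-(ε * (C * (2 * π)) * C + ε * S * (-S * (2 * π)))) = (2 * π) * (1 - gam u) := by
    rw [hgam']
    have h3 : C ^ 2 = 1 - S ^ 2 := by linarith
    calc _ = (2 * π) * (2 * ε * S * C - ε ^ 2 * S ^ 2 * C ^ 2 - ε ^ 2 * S ^ 4) := by ring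
      _ = _ := by rw [hε, h3]; ring
  rw [key]
  field_simp
  ring

theorem hasDerivAt_ghat_of_eq (u : ℝ) (h0 : sin (2 * π * u) = 0) :
    HasDerivAt ghat (1 / gam u) u := by
  have hgam : gam u = 1 := by unfold gam; rw [h0]; simp
  rw [hgam]
  have hR : HasDerivAt (fun v : ℝ => sin (2 * π * v) * |sin (2 * π * v)| /
      (1 - |sin (2 * π * v)| * cos (2 * π * v))) 0 u := by
    rw [hasDerivAt_iff_hasFDerivAt]
    have hz : (ContinuousLinearMap.toSpanSingleton ℝ (0 : ℝ)) = (0 : ℝ →L[ℝ] ℝ) := by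
      ext; simp
    rw [hz]
    refine Asymptotics.IsBigO.hasFDerivAt (n := 2) ?_ one_lt_two
    refine Asymptotics.IsBigO.of_bound (2 * (2 * π) ^ 2) (Eventually.of_forall fun v => ?_)
    have hX := X_pos v
    have hsv : |sin (2 * π * v)| ≤ 2 * π * |v - u| := by
      have h1 : |sin (2 * π * v) - sin (2 * π * u)| ≤ |2 * π * v - 2 * π * u| := by
        have := Real.abs_sin_sub_sin_le (2 * π * v) (2 * π * u)
        exact this
      rw [h0, sub_zero, ← mul_sub, abs_mul, abs_of_pos (by positivity : (0 : ℝ) < 2 * π)] at h1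
      exact h1
    rw [norm_div, norm_mul, Real.norm_eq_abs, Real.norm_eq_abs, Real.norm_eq_abs, abs_abs,
      abs_of_pos (show (0 : ℝ) < 1 - |sin (2 * π * v)| * cos (2 * π * v) by linarith),
      norm_pow, norm_norm, Real.norm_eq_abs]
    rw [div_le_iff₀ (by linarith)]
    have h2 : |sin (2 * π * v)| * |sin (2 * π * v)| ≤ (2 * π) ^ 2 * |v - u| ^ 2 := by
      rw [← mul_pow, sq]
      exact mul_le_mul hsv hsv (abs_nonneg _) (by positivity)
    have h3 : 0 ≤ (2 * π) ^ 2 * |v - u| ^ 2 := by positivity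
    nlinarith [h2, h3, hX]
  have hval : (fun v : ℝ => sin (2 * π * v) * |sin (2 * π * v)| /
      (1 - |sin (2 * π * v)| * cos (2 * π * v))) u = 0 := by simp [h0]
  have h1 := (hasDerivAt_id u).add (hR.arctan.div_const (2 * π))
  refine h1.congr_deriv ?_
  simp

theorem hasDerivAt_ghat (u : ℝ) : HasDerivAt ghat (1 / gam u) u := by
  have hcont : Continuous fun v : ℝ => sin (2 * π * v) := by fun_prop
  rcases lt_trichotomy (sin (2 * π * u)) 0 with h | h | h
  · refine hasDerivAt_ghat_of_ne u (-1) (by norm_num) ?_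
    filter_upwards [hcont.continuousAt.eventually_lt continuousAt_const h] with v hv
    rw [abs_of_neg hv]; ring
  · exact hasDerivAt_ghat_of_eq u h
  · refine hasDerivAt_ghat_of_ne u 1 (by norm_num) ?_
    filter_upwards [continuousAt_const.eventually_lt hcont.continuousAt h] with v hv
    rw [abs_of_pos hv]; ring

theorem sin_sq_ghat (u : ℝ) : sin (2 * π * ghat u) ^ 2 = sin (2 * π * u) ^ 2 / gam u := by
  have hX := X_pos u
  have hXY := XY_sq u
  have hgp := gam_pos u
  set S := sin (2 * π * u) with hS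
  set C := cos (2 * π * u) with hC
  have hX0 : (1 - |S| * C) ≠ 0 := by
    intro h; rw [h] at hX; norm_num at hX
  have h1 : 2 * π * ghat u = 2 * π * u + arctan (S * |S| / (1 - |S| * C)) := by
    unfold ghat
    rw [← hS, ← hC]
    have : (π : ℝ) ≠ 0 := pi_ne_zero
    field_simp
  rw [h1, sin_add, ← hS, ← hC, cos_arctan, sin_arctan]
  set R := S * |S| / (1 - |S| * C) with hR
  have hp : 0 < 1 + R ^ 2 := by positivity
  have h2 : S * (1 / √(1 + R ^ 2)) + C * (R / √(1 + R ^ 2)) = (S + C * R) / √(1 + R ^ 2) := by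
    ring
  rw [h2, div_pow, sq_sqrt hp.le]
  have h3 : S + C * R = S / (1 - |S| * C) := by
    rw [hR, eq_div_iff hX0, add_mul, mul_assoc, div_mul_cancel₀ _ hX0]
    ring
  have h4 : 1 + R ^ 2 = gam u / (1 - |S| * C) ^ 2 := by
    rw [← hXY, hR]
    exact one_add_div_sq _ _ hX0
  rw [h3, h4]
  field_simp

theorem strictMono_ghat : StrictMono ghat :=
  strictMono_of_hasDerivAt_pos (fun u => hasDerivAt_ghat u) (fun u => by
    have := gam_pos u
    positivity)

theorem ghat_half (n : ℤ) : ghat (n / 2) = n / 2 := by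
  unfold ghat
  have : sin (2 * π * ((n : ℝ) / 2)) = 0 := by
    rw [show 2 * π * ((n : ℝ) / 2) = n * π by ring]
    exact sin_int_mul_pi n
  rw [this]
  simp

theorem floor_ghat (u : ℝ) : ⌊2 * ghat u⌋ = ⌊2 * u⌋ := by
  rw [Int.floor_eq_iff]
  have h1 := Int.floor_le (2 * u)
  have h2 := Int.lt_floor_add_one (2 * u)
  constructor
  · have h3 : ((⌊2 * u⌋ : ℤ) : ℝ) / 2 ≤ u := by linarith
    have h4 := strictMono_ghat.monotone h3
    rw [ghat_half] at h4
    linarith
  · have h3 : u < (((⌊2 * u⌋ + 1 : ℤ)) : ℝ) / 2 := by push_cast; linarith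
    have h4 := strictMono_ghat h3
    rw [ghat_half] at h4
    push_cast at h4
    linarith

theorem ghat_zero : ghat 0 = 0 := by
  have := ghat_half 0
  simpa using this

theorem quarter_lt_ghat : 1 / 4 < ghat (1 / 4) := by
  unfold ghat
  have h1 : sin (2 * π * (1 / 4)) = 1 := by
    rw [show 2 * π * (1 / 4) = π / 2 by ring, sin_pi_div_two]
  have h2 : cos (2 * π * (1 / 4)) = 0 := by
    rw [show 2 * π * (1 / 4) = π / 2 by ring, cos_pi_div_two]
  rw [h1, h2]
  simp only [abs_one, mul_one, mul_zero, sub_zero, div_one, arctan_one]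
  have : 0 < π / 4 / (2 * π) := by positivity
  linarith

theorem ghat_neg_quarter_lt : ghat (-1 / 4) < -1 / 4 := by
  unfold ghat
  have h1 : sin (2 * π * (-1 / 4)) = -1 := by
    rw [show 2 * π * (-1 / 4) = -(π / 2) by ring, sin_neg, sin_pi_div_two]
  have h2 : cos (2 * π * (-1 / 4)) = 0 := by
    rw [show 2 * π * (-1 / 4) = -(π / 2) by ring, cos_neg, cos_pi_div_two]
  rw [h1, h2]
  simp only [abs_neg, abs_one, mul_one, mul_zero, sub_zero, div_one, arctan_neg, arctan_one]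
  have : 0 < π / 4 / (2 * π) := by positivity
  have h3 : -(π / 4) / (2 * π) = -(π / 4 / (2 * π)) := by ring
  rw [h3]
  linarith

end CommC1
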