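import Pool.Agent.Helper17.CommC1.Dens
import Pool.Agent.Helper17.CommC1.Trig

open Set Filter Topology Real

namespace CommC1

theorem amp_add_one (N : ℕ) (u : ℝ) :
    amp N (u + 1) = ((kap N (⌊2 * u⌋ + 2) : ℝ) + 1) * ((kap N (⌊2 * u⌋ + 2) : ℝ) + 2) / 2 := by
  unfold amp
  rw [show (2 : ℝ) * (u + 1) = 2 * u + (2 : ℤ) by push_cast; ring, Int.floor_add_intCast]

theorem den_pos (A σ : ℝ) (hA : 1 ≤ A) (h0 : 0 ≤ σ) : 0 < 1 + (A ^ 2 - 1) * σ := by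
  have : 0 ≤ (A ^ 2 - 1) * σ := mul_nonneg (by nlinarith) h0
  linarith

theorem cocF_eq (N : ℕ) (u : ℝ) :
    cocF N u = (1 + (amp N u ^ 2 - 1) * sin (2 * π * u) ^ 2) /
      (1 + (amp N (u + 1) ^ 2 - 1) * sin (2 * π * u) ^ 2) := by
  have h1 := den_pos (amp N u) (sin (2 * π * u) ^ 2) (one_le_amp N u) (sq_nonneg _)
  have h2 := den_pos (amp N (u + 1)) (sin (2 * π * u) ^ 2) (one_le_amp N _) (sq_nonneg _)
  unfold cocF dens
  rw [sin_add_one]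
  field_simp

theorem amp_ghat (N : ℕ) (u : ℝ) : amp N (ghat u) = amp N u := by
  unfold amp
  rw [floor_ghat]

theorem cocG_eq (N : ℕ) (u : ℝ) :
    cocG N u = (1 + (amp N u ^ 2 - 1) * sin (2 * π * u) ^ 2) /
      (gam u + (amp N u ^ 2 - 1) * sin (2 * π * u) ^ 2) := by
  have h1 := den_pos (amp N u) (sin (2 * π * u) ^ 2) (one_le_amp N u) (sq_nonneg _)
  have hg := gam_pos u
  have hA := one_le_amp N u
  have h3 : 0 ≤ (amp N u ^ 2 - 1) * sin (2 * π * u) ^ 2 :=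
    mul_nonneg (by nlinarith) (sq_nonneg _)
  have h2 : 0 < gam u + (amp N u ^ 2 - 1) * sin (2 * π * u) ^ 2 := by linarith
  unfold cocG dens
  rw [amp_ghat, sin_sq_ghat]
  have h4 : 1 + (amp N u ^ 2 - 1) * (sin (2 * π * u) ^ 2 / gam u) =
      (gam u + (amp N u ^ 2 - 1) * sin (2 * π * u) ^ 2) / gam u := by
    field_simp
  rw [h4]
  field_simp

theorem cocF_ge (N : ℕ) (u : ℝ) : 1 / 36 ≤ cocF N u := by
  rw [cocF_eq]
  have hA := one_le_amp N u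
  have hA' := one_le_amp N (u + 1)
  have h0 : 0 ≤ sin (2 * π * u) ^ 2 := sq_nonneg _
  have h1 : sin (2 * π * u) ^ 2 ≤ 1 := sin_sq_le_one _
  have h2 := den_pos (amp N (u + 1)) (sin (2 * π * u) ^ 2) hA' h0
  rw [div_le_div_iff₀ (by norm_num) h2]
  have hle : amp N (u + 1) ≤ 6 * amp N u := by
    rw [amp_add_one]
    unfold amp
    have hk := kap_nonneg N ⌊2 * u⌋
    have hk2 := kap_nonneg N (⌊2 * u⌋ + 2)
    have hd := abs_kap_add_two N ⌊2 * u⌋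
    rw [abs_le] at hd
    have hk' : (0 : ℝ) ≤ (kap N ⌊2 * u⌋ : ℝ) := by exact_mod_cast hk
    have hk2' : (0 : ℝ) ≤ (kap N (⌊2 * u⌋ + 2) : ℝ) := by exact_mod_cast hk2
    have hd' : (kap N (⌊2 * u⌋ + 2) : ℝ) ≤ (kap N ⌊2 * u⌋ : ℝ) + 2 := by
      have : kap N (⌊2 * u⌋ + 2) ≤ kap N ⌊2 * u⌋ + 2 := by linarith [hd.2]
      exact_mod_cast this
    nlinarith
  have hsq : amp N (u + 1) ^ 2 ≤ 36 * amp N u ^ 2 := by nlinarith
  nlinarith [mul_le_mul_of_nonneg_right hsq h0]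

theorem cocG_ge (N : ℕ) (u : ℝ) : 1 / 4 ≤ cocG N u := by
  rw [cocG_eq]
  have hg := gam_pos u
  have hg4 := gam_le u
  have hA := one_le_amp N u
  have h3 : 0 ≤ (amp N u ^ 2 - 1) * sin (2 * π * u) ^ 2 :=
    mul_nonneg (by nlinarith) (sq_nonneg _)
  rw [div_le_div_iff₀ (by norm_num) (by linarith)]
  linarith

theorem cocF_near {N M : ℕ} (h : N ≤ M) (u : ℝ) (h0 : -((N + 1 : ℝ) / 2) ≤ u)
    (h1 : u < (N - 1 : ℝ) / 2) : cocF M u = cocF N u := by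
  unfold cocF
  rw [dens_eq_of_le h u h0 (by linarith), dens_eq_of_le h (u + 1) (by linarith) (by linarith)]

theorem cocG_near {N M : ℕ} (h : N ≤ M) (u : ℝ) (h0 : -((N + 1 : ℝ) / 2) ≤ u)
    (h1 : u < (N - 1 : ℝ) / 2) : cocG M u = cocG N u := by
  unfold cocG
  have e0 : -((N + 1 : ℝ) / 2) ≤ ghat u := by
    have h3 := strictMono_ghat.monotone h0
    have h4 := ghat_half (-(N + 1 : ℤ))
    push_cast at h4
    rw [show -((N + 1 : ℝ) / 2) = (-1 + -(N : ℝ)) / 2 by ring] at h3 ⊢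
    rw [show (-(1 : ℝ) + -(N : ℝ)) / 2 = (-((N : ℝ) + 1)) / 2 by ring] at h3 ⊢
    rw [h4] at h3
    exact h3
  have e1 : ghat u < (N + 1 : ℝ) / 2 := by
    have h3 := strictMono_ghat (show u < ((N + 1 : ℤ) : ℝ) / 2 by push_cast; linarith)
    rw [ghat_half] at h3
    push_cast at h3
    exact h3
  rw [dens_eq_of_le h u h0 (by linarith), dens_eq_of_le h (ghat u) e0 e1]

/-- The error bound. -/
noncomputable def del (N : ℕ) : ℝ := ((1 + 2 / ((N : ℝ) - 3)) ^ 4 - 1) + 3 / (2 * ((N : ℝ) - 2))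

theorem tendsto_del : Tendsto del atTop (𝓝 0) := by
  have h1 : Tendsto (fun N : ℕ => (N : ℝ) - 3) atTop atTop :=
    tendsto_atTop_add_const_right _ _ tendsto_natCast_atTop_atTop
  have h2 : Tendsto (fun N : ℕ => (N : ℝ) - 2) atTop atTop :=
    tendsto_atTop_add_const_right _ _ tendsto_natCast_atTop_atTop
  have h3 : Tendsto (fun N : ℕ => 2 / ((N : ℝ) - 3)) atTop (𝓝 0) := h1.const_div_atTop 2
  have h4 : Tendsto (fun N : ℕ => 3 / (2 * ((N : ℝ) - 2))) atTop (𝓝 0) :=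
    (h2.const_mul_atTop (by norm_num : (0 : ℝ) < 2)).const_div_atTop 3
  have h5 := (((h3.const_add 1).pow 4).sub_const 1).add h4
  have h6 : ((1 + 0 : ℝ) ^ 4 - 1) + 0 = 0 := by norm_num
  rw [h6] at h5
  exact h5

theorem tri_le (k k' K : ℝ) (hK : 0 < K) (hk : K ≤ k) (hk' : K ≤ k') (hd : k ≤ k' + 2) :
    ((k + 1) * (k + 2) / 2) ^ 2 ≤ (1 + 2 / K) ^ 4 * ((k' + 1) * (k' + 2) / 2) ^ 2 := by
  have h1 : k + 1 ≤ (1 + 2 / K) * (k' + 1) := by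
    have : 2 / K * (k' + 1) ≥ 2 := by
      rw [ge_iff_le, div_mul_eq_mul_div, le_div_iff₀ hK]; nlinarith
    linarith
  have h2 : k + 2 ≤ (1 + 2 / K) * (k' + 2) := by
    have : 2 / K * (k' + 2) ≥ 2 := by
      rw [ge_iff_le, div_mul_eq_mul_div, le_div_iff₀ hK]; nlinarith
    linarith
  have h3 : (k + 1) * (k + 2) ≤ ((1 + 2 / K) * (k' + 1)) * ((1 + 2 / K) * (k' + 2)) :=
    mul_le_mul h1 h2 (by linarith) (mul_nonneg (by positivity) (by linarith))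
  have h4 : (k + 1) * (k + 2) / 2 ≤ (1 + 2 / K) ^ 2 * ((k' + 1) * (k' + 2) / 2) := by
    calc (k + 1) * (k + 2) / 2 ≤ (((1 + 2 / K) * (k' + 1)) * ((1 + 2 / K) * (k' + 2))) / 2 := by
          linarith
      _ = _ := by ring
  have h5 : 0 ≤ (k + 1) * (k + 2) / 2 := by
    have : 0 < k := lt_of_lt_of_le hK hk
    positivity
  calc ((k + 1) * (k + 2) / 2) ^ 2 ≤ ((1 + 2 / K) ^ 2 * ((k' + 1) * (k' + 2) / 2)) ^ 2 :=
        pow_le_pow_left₀ h5 h4 2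
    _ = _ := by ring

theorem cocF_far_aux (A A' σ η : ℝ) (hA : 1 ≤ A) (hA' : 1 ≤ A') (h0 : 0 ≤ σ) (h1 : σ ≤ 1)
    (hη : 0 ≤ η) (h2 : A ^ 2 ≤ (1 + η) * A' ^ 2) (h3 : A' ^ 2 ≤ (1 + η) * A ^ 2) :
    |(1 + (A ^ 2 - 1) * σ) / (1 + (A' ^ 2 - 1) * σ) - 1| ≤ η := by
  have hd := den_pos A' σ hA' h0
  have h4 : (1 + (A ^ 2 - 1) * σ) / (1 + (A' ^ 2 - 1) * σ) - 1 =
      ((A ^ 2 - A' ^ 2) * σ) / (1 + (A' ^ 2 - 1) * σ) := by
    rw [div_sub_one hd.ne']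
    congr 1
    ring
  rw [h4, abs_div, abs_of_pos hd, div_le_iff₀ hd, abs_mul, abs_of_nonneg h0]
  have h5 : |A ^ 2 - A' ^ 2| ≤ η * A' ^ 2 := by
    rw [abs_le]
    constructor
    · have : A ^ 2 ≤ A' ^ 2 ∨ A' ^ 2 ≤ A ^ 2 := le_total _ _
      rcases this with h | h
      · nlinarith [mul_le_mul_of_nonneg_left h hη]
      · nlinarith [mul_nonneg hη (sq_nonneg A')]
    · linarith
  calc |A ^ 2 - A' ^ 2| * σ ≤ η * A' ^ 2 * σ := mul_le_mul_of_nonneg_right h5 h0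
    _ ≤ η * (1 + (A' ^ 2 - 1) * σ) := by nlinarith [mul_nonneg hη (sub_nonneg.2 h1)]

theorem cocG_far_aux (A s c : ℝ) (hA : 1 < A) (hs : 0 ≤ s) (hc : c ≤ 1) (g : ℝ)
    (hg : g = 1 + s ^ 2 - 2 * (s * c)) (hgp : 0 < g) (hg1 : |g - 1| ≤ 3 * s) :
    |(1 + (A ^ 2 - 1) * s ^ 2) / (g + (A ^ 2 - 1) * s ^ 2) - 1| ≤ 3 / (2 * (A - 1)) := by
  have h3 : 0 ≤ (A ^ 2 - 1) * s ^ 2 := mul_nonneg (by nlinarith) (sq_nonneg _)
  have hd : 0 < g + (A ^ 2 - 1) * s ^ 2 := by linarith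
  have h4 : (1 + (A ^ 2 - 1) * s ^ 2) / (g + (A ^ 2 - 1) * s ^ 2) - 1 =
      (1 - g) / (g + (A ^ 2 - 1) * s ^ 2) := by
    rw [div_sub_one hd.ne']
    congr 1
    ring
  rw [h4, abs_div, abs_of_pos hd, abs_sub_comm, div_le_div_iff₀ hd (by linarith)]
  have h5 : 2 * (A - 1) * s ≤ g + (A ^ 2 - 1) * s ^ 2 := by
    rw [hg]
    nlinarith [sq_nonneg (A * s - 1), mul_nonneg hs (sub_nonneg.2 hc)]
  have h6 : 0 < 2 * (A - 1) := by linarith
  nlinarith [mul_le_mul_of_nonneg_right hg1 h6.le]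

theorem exists_del : ∃ δ : ℕ → ℝ, ∃ N₀ : ℕ, Tendsto δ atTop (𝓝 0) ∧
    ∀ N M : ℕ, N₀ ≤ N → N ≤ M → ∀ u : ℝ, -(M + 1 : ℝ) ≤ u → u ≤ M + 1 →
      (u < -((N + 1 : ℝ) / 2) ∨ (N - 1 : ℝ) / 2 ≤ u) →
      |cocF M u - 1| ≤ δ N ∧ |cocG M u - 1| ≤ δ N := by
  refine ⟨del, 4, tendsto_del, fun N M hN hNM u hu0 hu1 hu => ?_⟩
  set n := ⌊2 * u⌋ with hn
  have hn0 : -(2 * M + 2 : ℤ) ≤ n := by
    rw [hn, Int.le_floor]; push_cast; linarith
  have hn1 : n ≤ 2 * M + 2 := by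
    have h1 := Int.floor_le (2 * u)
    rw [← hn] at h1
    have h2 : (n : ℝ) ≤ 2 * M + 2 := by linarith
    exact_mod_cast h2
  have hn2 : n ≤ -(N + 2 : ℤ) ∨ (N : ℤ) - 1 ≤ n := by
    rcases hu with hu | hu
    · left
      have h1 := Int.floor_le (2 * u)
      rw [← hn] at h1
      have h2 : (n : ℝ) < -(N + 1 : ℝ) := by linarith
      have h3 : n < -(N + 1 : ℤ) := by exact_mod_cast h2
      omega
    · right
      rw [hn, Int.le_floor]; push_cast; linarith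
  have hk := kap_far hNM (by omega) n hn0 hn1 hn2
  have hd := abs_kap_add_two M n
  rw [abs_le] at hd
  have hkR : (N : ℝ) - 1 ≤ (kap M n : ℝ) := by exact_mod_cast hk
  have hd1 : (kap M (n + 2) : ℝ) ≤ (kap M n : ℝ) + 2 := by
    have : kap M (n + 2) ≤ kap M n + 2 := by linarith [hd.2]
    exact_mod_cast this
  have hd2 : (kap M n : ℝ) ≤ (kap M (n + 2) : ℝ) + 2 := by
    have : kap M n ≤ kap M (n + 2) + 2 := by linarith [hd.1]
    exact_mod_cast this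
  have hNR : (4 : ℝ) ≤ N := by exact_mod_cast hN
  set K : ℝ := (N : ℝ) - 3 with hK
  have hK1 : 1 ≤ K := by rw [hK]; linarith
  have hK0 : 0 < K := by linarith
  have hkK : K ≤ (kap M n : ℝ) := by rw [hK]; linarith
  have hkK' : K ≤ (kap M (n + 2) : ℝ) := by rw [hK]; linarith
  have hη : 0 ≤ (1 + 2 / K) ^ 4 - 1 := by
    have : 1 ≤ 1 + 2 / K := by
      have : 0 ≤ 2 / K := by positivity
      linarith
    have := one_le_pow₀ this (n := 4)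
    linarith
  have hr2 : 0 ≤ 3 / (2 * ((N : ℝ) - 2)) := by
    apply div_nonneg (by norm_num); linarith
  have hampn : amp M u = ((kap M n : ℝ) + 1) * ((kap M n : ℝ) + 2) / 2 := rfl
  have hamp' : amp M (u + 1) = ((kap M (n + 2) : ℝ) + 1) * ((kap M (n + 2) : ℝ) + 2) / 2 :=
    amp_add_one M u
  constructor
  · rw [cocF_eq]
    refine (cocF_far_aux _ _ _ ((1 + 2 / K) ^ 4 - 1) (one_le_amp _ _) (one_le_amp _ _)
      (sq_nonneg _) (sin_sq_le_one _) hη ?_ ?_).trans ?_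
    · rw [hampn, hamp', show 1 + ((1 + 2 / K) ^ 4 - 1) = (1 + 2 / K) ^ 4 by ring]
      exact tri_le _ _ K hK0 hkK hkK' hd2
    · rw [hampn, hamp', show 1 + ((1 + 2 / K) ^ 4 - 1) = (1 + 2 / K) ^ 4 by ring]
      exact tri_le _ _ K hK0 hkK' hkK hd1
    · unfold del
      linarith
  · rw [cocG_eq]
    have hA2 : (N : ℝ) - 1 ≤ amp M u := by
      rw [hampn]
      nlinarith
    have hA1 : 1 < amp M u := by linarith
    have hcos : cos (2 * π * u) ≤ 1 := cos_le_one _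
    have hh := cocG_far_aux (amp M u) |sin (2 * π * u)| (cos (2 * π * u)) hA1 (abs_nonneg _) hcos
      (gam u) (by unfold gam; rw [sq_abs]) (gam_pos u) (abs_gam_sub_one_le u)
    rw [sq_abs] at hh
    refine hh.trans ?_
    have h7 : 3 / (2 * (amp M u - 1)) ≤ 3 / (2 * ((N : ℝ) - 2)) := by
      apply div_le_div_of_nonneg_left (by norm_num) (by linarith) (by linarith)
    unfold del
    linarith

end CommC1
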