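import Pool.Agent.Helper17.CommC1.Defs

/-!
# Conjugation by the primitive of a positive periodic density
-/

open Set Filter Topology Real

namespace CommC1

private lemma conj_add_nat {T : ℝ → ℝ} (hT : ∀ u, T (u + 1) = T u + 1) (u : ℝ) (n : ℕ) :
    T (u + n) = T u + n := by
  induction n with
  | zero => simp
  | succ n ih =>
    have : u + ((n + 1 : ℕ) : ℝ) = (u + n) + 1 := by push_cast; ring
    rw [this, hT, ih]
    push_cast
    ring

private lemma conj_per_nat {T' : ℝ → ℝ} (hT : ∀ u, T' (u + 1) = T' u) (u : ℝ) (n : ℕ) :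
    T' (u + n) = T' u := by
  induction n with
  | zero => simp
  | succ n ih =>
    have : u + ((n + 1 : ℕ) : ℝ) = (u + n) + 1 := by push_cast; ring
    rw [this, hT, ih]

theorem exists_conj (h : ℝ → ℝ) (hc : Continuous h) (hpos : ∀ u, 0 < h u) (P : ℕ) (hP : 0 < P)
    (hper : ∀ u, h (u + P) = h u) (hint : ∫ u in (0 : ℝ)..P, h u = 1) :
    ∃ e : ℝ ≃o ℝ, (∀ u, e u = 1 / 2 + ∫ t in (0 : ℝ)..u, h t) ∧ (∀ u, e (u + P) = e u + 1) ∧
      (∀ x, e.symm (x + 1) = e.symm x + P) ∧ (∀ u, HasDerivAt e (h u) u) ∧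
      (∀ T T' : ℝ → ℝ, (∀ u, T (u + 1) = T u + 1) → (∀ u, T' (u + 1) = T' u) →
        (∀ u, 0 < T' u) → Continuous T' → (∀ u, HasDerivAt T (T' u) u) →
        IsLift (fun x => e (T (e.symm x)))
          (fun x => h (T (e.symm x)) * T' (e.symm x) / h (e.symm x))) := by
  have hii : ∀ a b : ℝ, IntervalIntegrable h MeasureTheory.volume a b :=
    fun a b => hc.intervalIntegrable a b
  let E : ℝ → ℝ := fun u => 1 / 2 + ∫ t in (0 : ℝ)..u, h t
  have hE : ∀ u, HasDerivAt E (h u) u := fun u =>
    (intervalIntegral.integral_hasDerivAt_right (hii 0 u)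
      (hc.stronglyMeasurableAtFilter _ _) hc.continuousAt).const_add (1 / 2)
  have hEc : Continuous E := continuous_iff_continuousAt.2 fun u => (hE u).continuousAt
  have hmono : StrictMono E := strictMono_of_deriv_pos fun u => by
    rw [(hE u).deriv]; exact hpos u
  have hEP : ∀ u, E (u + P) = E u + 1 := by
    intro u
    have h1 : ∫ t in (0 : ℝ)..(u + P), h t =
        (∫ t in (0 : ℝ)..u, h t) + ∫ t in u..(u + P), h t :=
      (intervalIntegral.integral_add_adjacent_intervals (hii 0 u) (hii u (u + P))).symm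
    have hperf : Function.Periodic h (P : ℝ) := hper
    have h2 : ∫ t in u..(u + P), h t = ∫ t in (0 : ℝ)..(0 + P), h t :=
      hperf.intervalIntegral_add_eq u 0
    rw [zero_add, hint] at h2
    simp only [E]
    rw [h1, h2]
    ring
  have hEn : ∀ n : ℕ, E (n * P) = 1 / 2 + n := by
    intro n
    induction n with
    | zero => simp [E]
    | succ n ih =>
      have : ((n + 1 : ℕ) : ℝ) * P = n * P + P := by push_cast; ring
      rw [this, hEP, ih]
      push_cast
      ring
  have hEm : ∀ n : ℕ, E (-(n * P)) = 1 / 2 - n := by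
    intro n
    induction n with
    | zero => simp [E]
    | succ n ih =>
      have h1 := hEP (-(((n + 1 : ℕ) : ℝ) * P))
      have : -(((n + 1 : ℕ) : ℝ) * P) + P = -(n * P) := by push_cast; ring
      rw [this, ih] at h1
      push_cast at h1 ⊢
      linarith
  have hsurj : Function.Surjective E := by
    intro y
    obtain ⟨n, hn⟩ := exists_nat_ge (|y| + 1)
    have h1 : E (-(n * P)) ≤ y := by
      rw [hEm]
      have := neg_abs_le y
      linarith
    have h2 : y ≤ E (n * P) := by
      rw [hEn]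
      have := le_abs_self y
      linarith
    exact mem_range_of_exists_le_of_exists_ge hEc ⟨_, h1⟩ ⟨_, h2⟩
  let e : ℝ ≃o ℝ := StrictMono.orderIsoOfSurjective E hmono hsurj
  have he : ∀ u, e u = E u := fun u => rfl
  have heP : ∀ u, e (u + P) = e u + 1 := fun u => by rw [he, he, hEP]
  have hsymm : ∀ x, e.symm (x + 1) = e.symm x + P := by
    intro x
    apply e.injective
    rw [e.apply_symm_apply, heP, e.apply_symm_apply]
  have hder : ∀ u, HasDerivAt e (h u) u := hE
  have hsc : Continuous e.symm := e.symm.continuous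
  have hsd : ∀ x, HasDerivAt e.symm (h (e.symm x))⁻¹ x := by
    intro x
    refine HasDerivAt.of_local_left_inverse (f := e) hsc.continuousAt (hder _) (hpos _).ne' ?_
    exact Eventually.of_forall fun y => e.apply_symm_apply y
  refine ⟨e, fun u => rfl, heP, hsymm, hder, ?_⟩
  intro T T' hT hT' hTpos hTc hTd
  have hTP := fun u => conj_add_nat hT u P
  have hTP' := fun u => conj_per_nat hT' u P
  have hTcont : Continuous T := continuous_iff_continuousAt.2 fun u => (hTd u).continuousAt
  refine ⟨fun x => ?_, fun x => ?_, fun x => ?_, ?_, fun x => ?_⟩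
  · show e (T (e.symm (x + 1))) = e (T (e.symm x)) + 1
    rw [hsymm, hTP, heP]
  · show 0 < h (T (e.symm x)) * T' (e.symm x) / h (e.symm x)
    exact div_pos (mul_pos (hpos _) (hTpos _)) (hpos _)
  · show h (T (e.symm (x + 1))) * T' (e.symm (x + 1)) / h (e.symm (x + 1)) =
      h (T (e.symm x)) * T' (e.symm x) / h (e.symm x)
    rw [hsymm, hTP, hTP', hper, hper]
  · exact ((hc.comp (hTcont.comp hsc)).mul (hTc.comp hsc)).div (hc.comp hsc)
      fun x => (hpos _).ne'
  · have h1 : HasDerivAt (fun x => T (e.symm x)) (T' (e.symm x) * (h (e.symm x))⁻¹) x :=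
      (hTd (e.symm x)).comp x (hsd x)
    have h2 : HasDerivAt (fun x => e (T (e.symm x)))
        (h (T (e.symm x)) * (T' (e.symm x) * (h (e.symm x))⁻¹)) x :=
      HasDerivAt.comp (h₂ := e) x (hder (T (e.symm x))) h1
    convert h2 using 1
    field_simp

end CommC1
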