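import Pool.Agent.Helper17.CommC1.Kap

/-!
# The amplitude and the density
-/

open Set Filter Topology Real

namespace CommC1

theorem one_le_amp (N : ℕ) (u : ℝ) : 1 ≤ amp N u := by
  have h : (0 : ℝ) ≤ (kap N ⌊2 * u⌋ : ℝ) := by exact_mod_cast kap_nonneg N _
  unfold amp
  nlinarith

theorem amp_le (N : ℕ) (u : ℝ) : amp N u ≤ ((N : ℝ) + 1) * ((N : ℝ) + 2) / 2 := by
  have h : (0 : ℝ) ≤ (kap N ⌊2 * u⌋ : ℝ) := by exact_mod_cast kap_nonneg N _
  have h' : (kap N ⌊2 * u⌋ : ℝ) ≤ N := by exact_mod_cast kap_le N _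
  unfold amp
  nlinarith [mul_le_mul h' h' h (h.trans h')]

theorem amp_add_period (N : ℕ) (u : ℝ) : amp N (u + (2 * N + 2)) = amp N u := by
  have h : ⌊2 * (u + (2 * N + 2))⌋ = ⌊2 * u⌋ + (4 * N + 4) := by
    have h1 : 2 * (u + (2 * (N : ℝ) + 2)) = 2 * u + ((4 * N + 4 : ℤ) : ℝ) := by
      push_cast
      ring
    rw [h1, Int.floor_add_intCast]
  unfold amp
  rw [h, kap_add_period]

theorem one_le_dens_den (N : ℕ) (u : ℝ) :
    1 ≤ 1 + (amp N u ^ 2 - 1) * sin (2 * π * u) ^ 2 := by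
  have h1 := one_le_amp N u
  have h2 : 0 ≤ amp N u ^ 2 - 1 := by nlinarith
  have h3 := mul_nonneg h2 (sq_nonneg (sin (2 * π * u)))
  linarith

theorem dens_pos (N : ℕ) (u : ℝ) : 0 < dens N u := by
  have h := one_le_dens_den N u
  unfold dens
  exact div_pos (by norm_num) (by linarith)

theorem dens_add_period (N : ℕ) (u : ℝ) : dens N (u + (2 * N + 2)) = dens N u := by
  have h : sin (2 * π * (u + (2 * N + 2))) = sin (2 * π * u) := by
    have h1 : 2 * π * (u + (2 * (N : ℝ) + 2)) = 2 * π * u + ((2 * N + 2 : ℕ) : ℝ) * (2 * π) := by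
      push_cast
      ring
    rw [h1, sin_add_nat_mul_two_pi]
  unfold dens
  rw [h, amp_add_period]

theorem continuous_dens_num (N : ℕ) :
    Continuous fun u : ℝ => (amp N u ^ 2 - 1) * sin (2 * π * u) ^ 2 := by
  have hs : Continuous fun u : ℝ => sin (2 * π * u) ^ 2 := by fun_prop
  rw [continuous_iff_continuousAt]
  intro u
  by_cases hu : ((⌊2 * u⌋ : ℤ) : ℝ) = 2 * u
  · -- `2 u` is an integer
    have hsin : sin (2 * π * u) = 0 := by
      have h1 : 2 * π * u = ((⌊2 * u⌋ : ℤ) : ℝ) * π := by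
        rw [hu]
        ring
      rw [h1]
      exact sin_int_mul_pi _
    have h0 : (amp N u ^ 2 - 1) * sin (2 * π * u) ^ 2 = 0 := by
      rw [hsin]
      ring
    show Tendsto _ _ (𝓝 ((amp N u ^ 2 - 1) * sin (2 * π * u) ^ 2))
    rw [h0]
    have hC : Tendsto (fun v : ℝ => (((N : ℝ) + 1) * ((N : ℝ) + 2) / 2) ^ 2 *
        sin (2 * π * v) ^ 2) (𝓝 u) (𝓝 0) := by
      have h2 : Continuous fun v : ℝ => (((N : ℝ) + 1) * ((N : ℝ) + 2) / 2) ^ 2 *
          sin (2 * π * v) ^ 2 := by fun_prop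
      have h3 := h2.tendsto u
      rw [hsin] at h3
      simpa using h3
    refine squeeze_zero (fun v => ?_) (fun v => ?_) hC
    · have := one_le_dens_den N v
      linarith
    · refine mul_le_mul_of_nonneg_right ?_ (sq_nonneg _)
      have h1 := one_le_amp N v
      have h2 := amp_le N v
      nlinarith
  · -- the floor is locally constant
    have h1 : ((⌊2 * u⌋ : ℤ) : ℝ) < 2 * u := lt_of_le_of_ne (Int.floor_le _) hu
    have h2 : 2 * u < ((⌊2 * u⌋ : ℤ) : ℝ) + 1 := Int.lt_floor_add_one _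
    have h3 : ∀ᶠ v in 𝓝 u, ⌊2 * v⌋ = ⌊2 * u⌋ := by
      have hc : Continuous fun v : ℝ => 2 * v := by fun_prop
      have e1 : ∀ᶠ v in 𝓝 u, ((⌊2 * u⌋ : ℤ) : ℝ) < 2 * v :=
        hc.continuousAt.eventually_const_lt h1
      have e2 : ∀ᶠ v in 𝓝 u, 2 * v < ((⌊2 * u⌋ : ℤ) : ℝ) + 1 :=
        hc.continuousAt.eventually_lt_const h2
      filter_upwards [e1, e2] with v hv1 hv2
      exact Int.floor_eq_iff.2 ⟨hv1.le, hv2⟩
    have h4 : (fun v : ℝ => (amp N u ^ 2 - 1) * sin (2 * π * v) ^ 2) =ᶠ[𝓝 u]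
        fun v : ℝ => (amp N v ^ 2 - 1) * sin (2 * π * v) ^ 2 := by
      filter_upwards [h3] with v hv
      have : amp N v = amp N u := by
        unfold amp
        rw [hv]
      rw [this]
    have h5 : Continuous fun v : ℝ => (amp N u ^ 2 - 1) * sin (2 * π * v) ^ 2 := by fun_prop
    exact h5.continuousAt.congr h4

theorem continuous_dens (N : ℕ) : Continuous (dens N) := by
  unfold dens
  refine continuous_const.div (continuous_const.add (continuous_dens_num N)) (fun u => ?_)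
  have := one_le_dens_den N u
  linarith

theorem dens_eq_of_le {N M : ℕ} (h : N ≤ M) (u : ℝ) (h0 : -((N + 1 : ℝ) / 2) ≤ u)
    (h1 : u < (N + 1 : ℝ) / 2) : dens M u = dens N u := by
  have h2 : -(N + 1 : ℤ) ≤ ⌊2 * u⌋ := by
    rw [Int.le_floor]
    push_cast
    linarith
  have h3 : ⌊2 * u⌋ ≤ N := by
    have : ⌊2 * u⌋ < (N : ℤ) + 1 := by
      rw [Int.floor_lt]
      push_cast
      linarith
    omega
  unfold dens amp
  rw [kap_eq_of_le h _ h2 h3]

end CommC1
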