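import Pool.Agent.Helper17.CommC1.Defs

/-!
# Integrals of the density
-/

open Set Filter Topology Real

namespace CommC1

private noncomputable def kf (A u : ℝ) : ℝ :=
  2 * u + (1 / π) * arctan ((A - 1) * (sin (2 * π * u) * cos (2 * π * u)) /
    (cos (2 * π * u) ^ 2 + A * sin (2 * π * u) ^ 2))

private theorem kf_deriv {A : ℝ} (hA : 1 ≤ A) (u : ℝ) :
    HasDerivAt (kf A) (2 * A / (1 + (A ^ 2 - 1) * sin (2 * π * u) ^ 2)) u := by
  have hl : HasDerivAt (fun u : ℝ => 2 * π * u) (2 * π) u := by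
    simpa using (hasDerivAt_id u).const_mul (2 * π)
  have hs : HasDerivAt (fun u : ℝ => sin (2 * π * u)) (cos (2 * π * u) * (2 * π)) u := hl.sin
  have hc : HasDerivAt (fun u : ℝ => cos (2 * π * u)) (-sin (2 * π * u) * (2 * π)) u := hl.cos
  have h1 := sin_sq_add_cos_sq (2 * π * u)
  have hD : 0 < cos (2 * π * u) ^ 2 + A * sin (2 * π * u) ^ 2 := by
    nlinarith [sq_nonneg (sin (2 * π * u)), sq_nonneg (cos (2 * π * u))]
  have hE : 0 < 1 + (A ^ 2 - 1) * sin (2 * π * u) ^ 2 := by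
    have : 0 ≤ (A ^ 2 - 1) * sin (2 * π * u) ^ 2 := mul_nonneg (by nlinarith) (sq_nonneg _)
    linarith
  have hnum : HasDerivAt (fun u : ℝ => (A - 1) * (sin (2 * π * u) * cos (2 * π * u)))
      ((A - 1) * (cos (2 * π * u) * (2 * π) * cos (2 * π * u) +
        sin (2 * π * u) * (-sin (2 * π * u) * (2 * π)))) u := (hs.mul hc).const_mul (A - 1)
  have hden : HasDerivAt (fun u : ℝ => cos (2 * π * u) ^ 2 + A * sin (2 * π * u) ^ 2)
      (2 * cos (2 * π * u) * (-sin (2 * π * u) * (2 * π)) +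
        A * (2 * sin (2 * π * u) * (cos (2 * π * u) * (2 * π)))) u := by
    have a1 := hc.pow 2
    have a2 := (hs.pow 2).const_mul A
    have := a1.add a2
    refine (this.congr_deriv ?_)
    simp
  have hR := hnum.div hden hD.ne'
  have hat := (hR.arctan).const_mul (1 / π)
  have hl2 : HasDerivAt (fun u : ℝ => 2 * u) 2 u := by
    simpa using (hasDerivAt_id u).const_mul (2 : ℝ)
  have hsum := hl2.add hat
  refine hsum.congr_deriv ?_
  have hpi := pi_ne_zero
  have hc2 : cos (2 * π * u) ^ 2 = 1 - sin (2 * π * u) ^ 2 := by linarith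
  simp only [Pi.div_apply]
  clear hsum hat hR hnum hden hs hc hl hl2

  generalize sin (2 * π * u) = s at *
  generalize cos (2 * π * u) = c at *
  have hF : (c ^ 2 + A * s ^ 2) ^ 2 + ((A - 1) * (s * c)) ^ 2 = 1 + (A ^ 2 - 1) * s ^ 2 := by
    have : (c ^ 2 + A * s ^ 2) ^ 2 + ((A - 1) * (s * c)) ^ 2 =
      (c ^ 2 + A ^ 2 * s ^ 2) * (c ^ 2 + s ^ 2) := by ring
    rw [this, hc2]; ring
  have hG : 1 + ((A - 1) * (s * c) / (c ^ 2 + A * s ^ 2)) ^ 2 =
      (1 + (A ^ 2 - 1) * s ^ 2) / (c ^ 2 + A * s ^ 2) ^ 2 := by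
    rw [← hF]; field_simp
  rw [hG]
  field_simp
  have e1 : c ^ 2 = 1 - s ^ 2 := hc2
  have e3 : c ^ 3 = c * (1 - s ^ 2) := by rw [← e1]; ring
  have e4 : c ^ 4 = (1 - s ^ 2) ^ 2 := by rw [← e1]; ring
  ring_nf
  simp only [e1, e4]
  ring

private theorem piece (N : ℕ) (n : ℤ) (hk : 0 ≤ kap N n) :
    ∫ u in ((n : ℝ) / 2)..(((n : ℝ) + 1) / 2), dens N u =
      1 / (4 * (((kap N n : ℝ) + 1) * ((kap N n : ℝ) + 2) / 2)) ∧
    IntervalIntegrable (dens N) MeasureTheory.volume ((n : ℝ) / 2) (((n : ℝ) + 1) / 2) := by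
  set A : ℝ := ((kap N n : ℝ) + 1) * ((kap N n : ℝ) + 2) / 2 with hAd
  have hk' : (0 : ℝ) ≤ kap N n := by exact_mod_cast hk
  have hA : 1 ≤ A := by rw [hAd]; nlinarith
  have hs1 : sin (2 * π * (((n : ℝ) + 1) / 2)) = 0 := by
    have : 2 * π * (((n : ℝ) + 1) / 2) = ((n + 1 : ℤ) : ℝ) * π := by push_cast; ring
    rw [this, sin_int_mul_pi]
  have hs0 : sin (2 * π * ((n : ℝ) / 2)) = 0 := by
    have : 2 * π * ((n : ℝ) / 2) = (n : ℝ) * π := by ring
    rw [this, sin_int_mul_pi]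
  have hE : ∀ u : ℝ, 0 < 1 + (A ^ 2 - 1) * sin (2 * π * u) ^ 2 := fun u => by
    have : 0 ≤ (A ^ 2 - 1) * sin (2 * π * u) ^ 2 := mul_nonneg (by nlinarith) (sq_nonneg _)
    linarith
  have hle : (n : ℝ) / 2 ≤ ((n : ℝ) + 1) / 2 := by linarith
  have heq : ∀ u ∈ uIcc ((n : ℝ) / 2) (((n : ℝ) + 1) / 2), dens N u =
      1 / (4 * A) * (2 * A / (1 + (A ^ 2 - 1) * sin (2 * π * u) ^ 2)) := by
    intro u hu
    rw [uIcc_of_le hle] at hu
    have hA0 : A ≠ 0 := by positivity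
    have hE' := (hE u).ne'
    rcases eq_or_lt_of_le hu.2 with h | h
    · have hz : sin (2 * π * u) = 0 := by rw [h]; exact hs1
      simp only [dens, hz]
      field_simp
      ring
    · have hf : ⌊2 * u⌋ = n := by
        rw [Int.floor_eq_iff]; constructor <;> linarith [hu.1]
      simp only [dens, amp, hf, ← hAd]
      field_simp
      ring
  have hcont : Continuous fun u : ℝ =>
      1 / (4 * A) * (2 * A / (1 + (A ^ 2 - 1) * sin (2 * π * u) ^ 2)) := by
    refine continuous_const.mul (continuous_const.div (by fun_prop) fun u => (hE u).ne')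
  have hcont2 : Continuous fun u : ℝ => 2 * A / (1 + (A ^ 2 - 1) * sin (2 * π * u) ^ 2) :=
    continuous_const.div (by fun_prop) fun u => (hE u).ne'
  constructor
  · rw [intervalIntegral.integral_congr heq, intervalIntegral.integral_const_mul,
      intervalIntegral.integral_eq_sub_of_hasDerivAt (fun u _ => kf_deriv hA u)
        (hcont2.intervalIntegrable _ _)]
    simp only [kf, hs0, hs1]
    simp
    ring
  · refine (hcont.intervalIntegrable _ _).congr ?_
    intro u hu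
    exact (heq u (uIoc_subset_uIcc hu)).symm

private theorem sum_val (N : ℕ) : ∑ k ∈ Finset.range ((N + 1) + (N + 1)),
    (1 : ℝ) / (4 * ((((min (k : ℤ) N : ℤ) : ℝ) + 1) * (((min (k : ℤ) N : ℤ) : ℝ) + 2) / 2)) =
    1 / 2 := by
  have h1 : ∀ M : ℕ, ∑ k ∈ Finset.range M, (1 : ℝ) / (4 * (((k : ℝ) + 1) * ((k : ℝ) + 2) / 2)) =
      1 / 2 * (1 - 1 / ((M : ℝ) + 1)) := by
    intro M
    induction M with
    | zero => simp
    | succ M ih =>
      rw [Finset.sum_range_succ, ih]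
      push_cast
      have : (M : ℝ) + 1 ≠ 0 := by positivity
      have : (M : ℝ) + 1 + 1 ≠ 0 := by positivity
      have : (M : ℝ) + 2 ≠ 0 := by positivity
      field_simp
      ring
  rw [Finset.sum_range_add]
  have h2 : ∑ k ∈ Finset.range (N + 1), (1 : ℝ) /
      (4 * ((((min (k : ℤ) N : ℤ) : ℝ) + 1) * (((min (k : ℤ) N : ℤ) : ℝ) + 2) / 2)) =
      1 / 2 * (1 - 1 / (((N + 1 : ℕ) : ℝ) + 1)) := by
    rw [← h1]
    refine Finset.sum_congr rfl fun k hk => ?_
    have hk' : (k : ℤ) ≤ N := by have := Finset.mem_range.1 hk; omega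
    rw [min_eq_left hk']; simp
  have h3 : ∑ k ∈ Finset.range (N + 1), (1 : ℝ) /
      (4 * ((((min (((N + 1 + k : ℕ)) : ℤ) N : ℤ) : ℝ) + 1) *
        (((min (((N + 1 + k : ℕ)) : ℤ) N : ℤ) : ℝ) + 2) / 2)) =
      ((N : ℝ) + 1) * (1 / (4 * (((N : ℝ) + 1) * ((N : ℝ) + 2) / 2))) := by
    have : ∀ k ∈ Finset.range (N + 1), (1 : ℝ) /
      (4 * ((((min (((N + 1 + k : ℕ)) : ℤ) N : ℤ) : ℝ) + 1) *
        (((min (((N + 1 + k : ℕ)) : ℤ) N : ℤ) : ℝ) + 2) / 2)) =
        1 / (4 * (((N : ℝ) + 1) * ((N : ℝ) + 2) / 2)) := by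
      intro k _
      have hk' : ((N : ℕ) : ℤ) ≤ ((N + 1 + k : ℕ) : ℤ) := by omega
      rw [min_eq_right hk']; simp
    rw [Finset.sum_congr rfl this, Finset.sum_const, Finset.card_range, nsmul_eq_mul]
    push_cast; ring
  rw [h2, h3]
  push_cast
  have : (N : ℝ) + 1 ≠ 0 := by positivity
  have : (N : ℝ) + 2 ≠ 0 := by positivity
  have : (N : ℝ) + 1 + 1 ≠ 0 := by positivity
  field_simp
  ring

private theorem kap_nn (N : ℕ) (n : ℤ) (h0 : 0 ≤ n) (h1 : n ≤ 2 * N + 1) :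
    kap N n = min n N := by
  unfold kap
  rw [Int.emod_eq_of_lt h0 (by omega)]
  omega

private theorem kap_ng (N : ℕ) (n : ℤ) (h0 : n < 0) (h1 : -(2 * N + 2) ≤ n) :
    kap N n = min (-1 - n) N := by
  unfold kap
  have : n % (4 * N + 4) = n + (4 * N + 4) := by
    rw [← Int.add_emod_right, Int.emod_eq_of_lt (by omega) (by omega)]
  rw [this]
  omega

theorem integral_dens_pos (N : ℕ) : ∫ u in (0 : ℝ)..(N + 1), dens N u = 1 / 2 := by
  have hk : ∀ k ∈ Finset.range ((N + 1) + (N + 1)), kap N (k : ℤ) = min (k : ℤ) N := by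
    intro k hk
    have := Finset.mem_range.1 hk
    exact kap_nn N k (by omega) (by omega)
  have hk0 : ∀ k ∈ Finset.range ((N + 1) + (N + 1)), 0 ≤ kap N (k : ℤ) := by
    intro k h; rw [hk k h]; omega
  have := intervalIntegral.sum_integral_adjacent_intervals (f := dens N)
    (μ := MeasureTheory.volume) (a := fun k : ℕ => (k : ℝ) / 2) (n := (N + 1) + (N + 1))
    (fun k h => by
      have h2 := (piece N k (hk0 k (Finset.mem_range.2 h))).2
      simpa using h2)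
  have e0 : ((0 : ℕ) : ℝ) / 2 = 0 := by simp
  have e1 : (((N + 1) + (N + 1) : ℕ) : ℝ) / 2 = (N : ℝ) + 1 := by push_cast; ring
  rw [e0, e1] at this
  rw [← this, ← sum_val N]
  refine Finset.sum_congr rfl fun k h => ?_
  have h2 := (piece N k (hk0 k h)).1
  rw [hk k h] at h2
  rw [← h2]
  simp

theorem integral_dens_neg (N : ℕ) : ∫ u in (-(N + 1) : ℝ)..0, dens N u = 1 / 2 := by
  have hk : ∀ k ∈ Finset.range ((N + 1) + (N + 1)),
      kap N (-((k : ℤ) + 1)) = min (k : ℤ) N := by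
    intro k hk
    have := Finset.mem_range.1 hk
    rw [kap_ng N _ (by omega) (by omega)]
    congr 1
    ring
  have hk0 : ∀ k ∈ Finset.range ((N + 1) + (N + 1)), 0 ≤ kap N (-((k : ℤ) + 1)) := by
    intro k h; rw [hk k h]; omega
  have hI : ∀ k : ℕ, k < (N + 1) + (N + 1) →
      (∫ u in (-(k : ℝ) / 2)..(-((k + 1 : ℕ) : ℝ) / 2), dens N u =
        -(1 / (4 * ((((min (k : ℤ) N : ℤ) : ℝ) + 1) * (((min (k : ℤ) N : ℤ) : ℝ) + 2) / 2)))) ∧
      IntervalIntegrable (dens N) MeasureTheory.volume (-(k : ℝ) / 2)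
        (-((k + 1 : ℕ) : ℝ) / 2) := by
    intro k h
    have h2 := piece N (-((k : ℤ) + 1)) (hk0 k (Finset.mem_range.2 h))
    rw [hk k (Finset.mem_range.2 h)] at h2
    have a1 : (((-((k : ℤ) + 1) : ℤ) : ℝ)) / 2 = -((k + 1 : ℕ) : ℝ) / 2 := by push_cast; ring
    have a2 : ((((-((k : ℤ) + 1) : ℤ) : ℝ)) + 1) / 2 = -(k : ℝ) / 2 := by push_cast; ring
    rw [a1, a2] at h2
    refine ⟨?_, h2.2.symm⟩
    rw [intervalIntegral.integral_symm, h2.1]
  have := intervalIntegral.sum_integral_adjacent_intervals (f := dens N)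
    (μ := MeasureTheory.volume) (a := fun k : ℕ => -(k : ℝ) / 2) (n := (N + 1) + (N + 1))
    (fun k h => (hI k h).2)
  have e0 : -((0 : ℕ) : ℝ) / 2 = 0 := by simp
  have e1 : -(((N + 1) + (N + 1) : ℕ) : ℝ) / 2 = -((N : ℝ) + 1) := by push_cast; ring
  rw [e0, e1] at this
  rw [intervalIntegral.integral_symm, ← this,
    Finset.sum_congr rfl fun k h => (hI k (Finset.mem_range.1 h)).1, Finset.sum_neg_distrib,
    sum_val N]
  ring

end CommC1
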