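import Pool.Agent.Helper17.CommC1.Limit
import Pool.Agent.Helper17.CommC1.Trig
import Pool.Agent.Helper17.CommC1.Kap
import Pool.Agent.Helper17.CommC1.Dens
import Pool.Agent.Helper17.CommC1.Int
import Pool.Agent.Helper17.CommC1.Conj
import Pool.Agent.Helper17.CommC1.Coc

open Set Filter Topology

namespace CommC1

theorem integral_dens_period (N : ℕ) : ∫ u in (0 : ℝ)..((2 * N + 2 : ℕ) : ℝ), dens N u = 1 := by
  have hper : Function.Periodic (dens N) (2 * N + 2 : ℝ) := dens_add_period N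
  have h1 := hper.intervalIntegral_add_eq 0 (-(N + 1 : ℝ))
  have hi : ∀ a b : ℝ, IntervalIntegrable (dens N) MeasureTheory.volume a b := fun a b =>
    (continuous_dens N).intervalIntegrable a b
  have e1 : (-(N + 1 : ℝ)) + (2 * N + 2) = N + 1 := by ring
  rw [e1, zero_add] at h1
  push_cast
  rw [h1, ← intervalIntegral.integral_add_adjacent_intervals (hi _ 0) (hi 0 _),
    integral_dens_neg, integral_dens_pos]
  norm_num

/-- The data at level `N`. -/
theorem exists_e (N : ℕ) : ∃ e : ℝ ≃o ℝ, (∀ u, e u = 1 / 2 + ∫ t in (0 : ℝ)..u, dens N t) ∧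
      (∀ u, e (u + (2 * N + 2)) = e u + 1) ∧
      (∀ T T' : ℝ → ℝ, (∀ u, T (u + 1) = T u + 1) → (∀ u, T' (u + 1) = T' u) →
        (∀ u, 0 < T' u) → Continuous T' → (∀ u, HasDerivAt T (T' u) u) →
        IsLift (fun x => e (T (e.symm x)))
          (fun x => dens N (T (e.symm x)) * T' (e.symm x) / dens N (e.symm x))) := by
  obtain ⟨e, h1, h2, h3, h4, h5⟩ := exists_conj (dens N) (continuous_dens N) (dens_pos N)
    (2 * N + 2) (by omega) (fun u => by push_cast; exact dens_add_period N u)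
    (integral_dens_period N)
  refine ⟨e, h1, fun u => ?_, h5⟩
  have := h2 u
  push_cast at this
  exact this

noncomputable def eN (N : ℕ) : ℝ ≃o ℝ := (exists_e N).choose

theorem eN_apply (N : ℕ) (u : ℝ) : eN N u = 1 / 2 + ∫ t in (0 : ℝ)..u, dens N t :=
  (exists_e N).choose_spec.1 u

theorem eN_lift (N : ℕ) (T T' : ℝ → ℝ) (h1 : ∀ u, T (u + 1) = T u + 1)
    (h2 : ∀ u, T' (u + 1) = T' u) (h3 : ∀ u, 0 < T' u) (h4 : Continuous T')
    (h5 : ∀ u, HasDerivAt T (T' u) u) :
    IsLift (fun x => eN N (T ((eN N).symm x)))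
      (fun x => dens N (T ((eN N).symm x)) * T' ((eN N).symm x) / dens N ((eN N).symm x)) :=
  (exists_e N).choose_spec.2.2 T T' h1 h2 h3 h4 h5

theorem eN_top (N : ℕ) : eN N (N + 1) = 1 := by
  rw [eN_apply, integral_dens_pos]; norm_num

theorem eN_bot (N : ℕ) : eN N (-(N + 1)) = 0 := by
  rw [eN_apply, intervalIntegral.integral_symm, integral_dens_neg]; norm_num

theorem eN_eq {N M : ℕ} (h : N ≤ M) (u : ℝ) (h0 : -((N + 1 : ℝ) / 2) ≤ u)
    (h1 : u < (N + 1 : ℝ) / 2) : eN M u = eN N u := by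
  rw [eN_apply, eN_apply]
  congr 1
  refine intervalIntegral.integral_congr fun t ht => ?_
  have hN : (0 : ℝ) ≤ N := N.cast_nonneg
  rw [mem_uIcc] at ht
  refine dens_eq_of_le h t ?_ ?_
  · rcases ht with ht | ht <;> linarith [ht.1, ht.2]
  · rcases ht with ht | ht <;> linarith [ht.1, ht.2]

/-- The general limit statement for a map `T` of the line with cocycle `c`. -/
theorem exists_limit_T (T T' : ℝ → ℝ) (h1 : ∀ u, T (u + 1) = T u + 1)
    (h2 : ∀ u, T' (u + 1) = T' u) (h3 : ∀ u, 0 < T' u) (h4 : Continuous T')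
    (h5 : ∀ u, HasDerivAt T (T' u) u) (c : ℕ → ℝ → ℝ)
    (hc : ∀ N u, c N u = dens N (T u) * T' u / dens N u)
    (near : ∀ {N M : ℕ} (_ : N ≤ M) (u : ℝ) (_ : -((N + 1 : ℝ) / 2) ≤ u)
      (_ : u < (N - 1 : ℝ) / 2), c M u = c N u)
    (δ : ℕ → ℝ) (hδ : Tendsto δ atTop (𝓝 0)) (s : ℕ)
    (far : ∀ N M : ℕ, s ≤ N → N ≤ M → ∀ u : ℝ, -(M + 1 : ℝ) ≤ u → u ≤ M + 1 →
      (u < -((N + 1 : ℝ) / 2) ∨ (N - 1 : ℝ) / 2 ≤ u) → |c M u - 1| ≤ δ N)
    (κ : ℝ) (hκ : 0 < κ) (hD : ∀ N u, κ ≤ c N u)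
    (hT0 : -((s + 1 : ℝ) / 2) ≤ T 0) (hT0' : T 0 < (s + 1 : ℝ) / 2) :
    ∃ F₀ D₀ : ℝ → ℝ, IsLift F₀ D₀ ∧
      TendstoUniformly (fun n x => eN (s + n) (T ((eN (s + n)).symm x))) F₀ atTop ∧
      TendstoUniformly (fun n x => c (s + n) ((eN (s + n)).symm x)) D₀ atTop ∧
      (∀ x, Tendsto (fun n => eN (s + n) (T ((eN (s + n)).symm x))) atTop (𝓝 (F₀ x))) ∧
      ∀ (N : ℕ) (u : ℝ), -((N + 1 : ℝ) / 2) ≤ u → u < (N + 1 : ℝ) / 2 →
        -((N + 1 : ℝ) / 2) ≤ T u → T u < (N + 1 : ℝ) / 2 → F₀ (eN N u) = eN N (T u) := by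
  have hlift : ∀ n, IsLift (fun x => eN (s + n) (T ((eN (s + n)).symm x)))
      (fun x => c (s + n) ((eN (s + n)).symm x)) := by
    intro n
    have := eN_lift (s + n) T T' h1 h2 h3 h4 h5
    simp only [← hc] at this
    exact this
  have hcauchy : ∀ n m, n ≤ m → ∀ x, |c (s + n) ((eN (s + n)).symm x) -
      c (s + m) ((eN (s + m)).symm x)| ≤ 2 * δ (s + n) := by
    intro n m hnm x
    have hper : Function.Periodic (fun x => c (s + n) ((eN (s + n)).symm x) -
      c (s + m) ((eN (s + m)).symm x)) 1 := fun x => by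
      show c (s + n) ((eN (s + n)).symm (x + 1)) - c (s + m) ((eN (s + m)).symm (x + 1)) = _
      rw [(hlift n).per x, (hlift m).per x]
    obtain ⟨z, hz, hzx⟩ := hper.exists_mem_Ico₀ one_pos x
    have hzx' : c (s + n) ((eN (s + n)).symm x) - c (s + m) ((eN (s + m)).symm x) =
      c (s + n) ((eN (s + n)).symm z) - c (s + m) ((eN (s + m)).symm z) := hzx
    rw [hzx']
    set N := s + n with hN
    set M := s + m with hM
    have hNM : N ≤ M := by omega
    have hsN : s ≤ N := by omega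
    have hpos : 0 ≤ δ N := by
      refine (abs_nonneg _).trans (far N N hsN le_rfl ((N + 1 : ℝ)) ?_ le_rfl (Or.inr ?_))
      · have : (0 : ℝ) ≤ N := N.cast_nonneg
        linarith
      · have : (0 : ℝ) ≤ N := N.cast_nonneg
        linarith
    set u := (eN N).symm z with hu
    set v := (eN M).symm z with hv
    have eu : eN N u = z := (eN N).apply_symm_apply z
    have ev : eN M v = z := (eN M).apply_symm_apply z
    have hu1 : -(N + 1 : ℝ) ≤ u := by
      rw [← (eN N).le_iff_le, eu, eN_bot]; exact hz.1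
    have hu2 : u ≤ N + 1 := by
      rw [← (eN N).le_iff_le, eu, eN_top]; exact hz.2.le
    have hv1 : -(M + 1 : ℝ) ≤ v := by
      rw [← (eN M).le_iff_le, ev, eN_bot]; exact hz.1
    have hv2 : v ≤ M + 1 := by
      rw [← (eN M).le_iff_le, ev, eN_top]; exact hz.2.le
    by_cases hcase : -((N + 1 : ℝ) / 2) ≤ u ∧ u < (N - 1 : ℝ) / 2
    · have huv : u = v := by
        apply (eN M).injective
        rw [ev, eN_eq hNM u hcase.1 (by linarith [hcase.2]), eu]
      rw [← huv, near hNM u hcase.1 hcase.2, sub_self, abs_zero]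
      linarith
    · have hu3 : u < -((N + 1 : ℝ) / 2) ∨ (N - 1 : ℝ) / 2 ≤ u := by
        by_contra hcon
        rw [not_or, not_lt, not_le] at hcon
        exact hcase hcon
      have hv3 : v < -((N + 1 : ℝ) / 2) ∨ (N - 1 : ℝ) / 2 ≤ v := by
        by_contra hcon
        rw [not_or, not_lt, not_le] at hcon
        have huv : u = v := by
          apply (eN N).injective
          rw [eu, ← eN_eq hNM v hcon.1 (by linarith [hcon.2]), ev]
        rw [huv] at hcase
        exact hcase hcon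
      have g1 := far N N hsN le_rfl u hu1 hu2 hu3
      have g2 := far N M hsN hNM v hv1 hv2 hv3
      have g3 := abs_sub_le (c N u) 1 (c M v)
      rw [abs_sub_comm 1] at g3
      linarith
  have hb : Tendsto (fun n => 2 * δ (s + n)) atTop (𝓝 0) := by
    have h6 : Tendsto (fun n : ℕ => s + n) atTop atTop := by
      simpa only [add_comm] using tendsto_add_atTop_nat s
    have := (hδ.comp h6).const_mul 2
    simpa using this
  have hbase : ∀ n m, eN (s + n) (T ((eN (s + n)).symm (1 / 2))) =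
      eN (s + m) (T ((eN (s + m)).symm (1 / 2))) := by
    have h7 : ∀ n, eN (s + n) (T ((eN (s + n)).symm (1 / 2))) = eN s (T 0) := by
      intro n
      have h8 : (eN (s + n)).symm (1 / 2) = 0 := by
        rw [OrderIso.symm_apply_eq, eN_apply]; simp
      rw [h8, eN_eq (by omega : s ≤ s + n) _ hT0 hT0']
    intro n m
    rw [h7, h7]
  obtain ⟨F₀, D₀, k1, k2, k3, k4⟩ := exists_limit_lift _ _ _ hb hlift hcauchy κ hκ
    (fun n x => hD _ _) (1 / 2) (by norm_num) (by norm_num) hbase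
  refine ⟨F₀, D₀, k1, k2, k3, k4, ?_⟩
  intro N u a1 a2 a3 a4
  refine tendsto_nhds_unique (k4 (eN N u)) ?_
  refine Tendsto.congr' ?_ tendsto_const_nhds
  filter_upwards [eventually_ge_atTop N] with n hn
  have hNn : N ≤ s + n := by omega
  rw [← eN_eq hNn u a1 a2, OrderIso.symm_apply_apply, eN_eq hNn _ a3 a4]

theorem iterate_conj (e : ℝ ≃o ℝ) (j : ℕ) (x : ℝ) :
    (fun x => e (e.symm x + 1))^[j] x = e (e.symm x + j) := by
  induction j with
  | zero => simp
  | succ j ih =>
    rw [Function.iterate_succ_apply', ih]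
    simp only [OrderIso.symm_apply_apply]
    congr 1
    push_cast
    ring

theorem main : ∃ q : CommPairs, ∃ U ∈ 𝓝 q, ∀ V ∈ 𝓝 q, V ⊆ U → ¬ IsPreconnected V := by
  obtain ⟨δ, N₀, hδ, hfar⟩ := exists_del
  set s := max N₀ 2 with hs
  have hsN : N₀ ≤ s := le_max_left _ _
  have hs2 : 2 ≤ s := le_max_right _ _
  have hs2' : (2 : ℝ) ≤ s := by exact_mod_cast hs2
  have fa : ∀ u : ℝ, (fun u : ℝ => u + 1) (u + 1) = (fun u : ℝ => u + 1) u + 1 := fun u => rfl
  obtain ⟨F₀, D₀, f1, f2, f3, f4, f5⟩ := exists_limit_T (fun u => u + 1) (fun _ => 1)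
    fa (fun _ => rfl) (fun _ => one_pos) continuous_const
    (fun u => (hasDerivAt_id u).add_const 1) cocF (fun N u => rfl) cocF_near δ hδ s
    (fun N M h1 h2 u h3 h4 h5 => (hfar N M (hsN.trans h1) h2 u h3 h4 h5).1) (1 / 36)
    (by norm_num) cocF_ge (by linarith) (by linarith)
  obtain ⟨G₀, E₀, g1, g2, g3, g4, g5⟩ := exists_limit_T ghat (fun u => 1 / gam u)
    ghat_add_one (fun u => by simp only [gam_add_one]) (fun u => one_div_pos.mpr (gam_pos u))
    (continuous_const.div continuous_gam fun u => (gam_pos u).ne')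
    hasDerivAt_ghat cocG (fun N u => rfl) cocG_near δ hδ s
    (fun N M h1 h2 u h3 h4 h5 => (hfar N M (hsN.trans h1) h2 u h3 h4 h5).2) (1 / 4)
    (by norm_num) cocG_ge (by rw [ghat_zero]; linarith) (by rw [ghat_zero]; linarith)
  have liftF : ∀ n, IsLift (fun x => eN (s + n) ((eN (s + n)).symm x + 1))
      (fun x => cocF (s + n) ((eN (s + n)).symm x)) := fun n =>
    eN_lift (s + n) (fun u => u + 1) (fun _ => 1)
      fa (fun _ => rfl) (fun _ => one_pos) continuous_const
      (fun u => (hasDerivAt_id u).add_const 1)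
  have liftG : ∀ n, IsLift (fun x => eN (s + n) (ghat ((eN (s + n)).symm x)))
      (fun x => cocG (s + n) ((eN (s + n)).symm x)) := fun n =>
    eN_lift (s + n) ghat (fun u => 1 / gam u)
      ghat_add_one (fun u => by simp only [gam_add_one])
      (fun u => one_div_pos.mpr (gam_pos u))
      (continuous_const.div continuous_gam fun u => (gam_pos u).ne') hasDerivAt_ghat
  have comm : ∀ n x, eN (s + n) ((eN (s + n)).symm (eN (s + n) (ghat ((eN (s + n)).symm x))) + 1)
      = eN (s + n) (ghat ((eN (s + n)).symm (eN (s + n) ((eN (s + n)).symm x + 1)))) := by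
    intro n x
    rw [OrderIso.symm_apply_apply, OrderIso.symm_apply_apply, ghat_add_one]
  have comm0 : ∀ x, F₀ (G₀ x) = G₀ (F₀ x) := by
    intro x
    have t1 := f2.tendsto_comp (f1.continuous.continuousAt (x := G₀ x)) (g4 x)
    have t2 := g2.tendsto_comp (g1.continuous.continuousAt (x := F₀ x)) (f4 x)
    refine tendsto_nhds_unique t1 (t2.congr fun n => ?_)
    exact (comm n x).symm
  -- the base points
  have fl1 : ⌊2 * ghat (1 / 4)⌋ = 0 := by
    rw [floor_ghat]; norm_num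
  have fl2 : ⌊2 * ghat (-1 / 4)⌋ = -1 := by
    rw [floor_ghat]
    rw [Int.floor_eq_iff]; norm_num
  rw [Int.floor_eq_iff] at fl1 fl2
  norm_num at fl1 fl2
  have hx : eN s (1 / 4) < G₀ (eN s (1 / 4)) := by
    rw [g5 s (1 / 4) (by linarith) (by linarith) (by linarith [fl1.1]) (by linarith [fl1.2])]
    exact (eN s).strictMono quarter_lt_ghat
  have hz : G₀ (eN s (-1 / 4)) < eN s (-1 / 4) := by
    rw [g5 s (-1 / 4) (by linarith) (by linarith) (by linarith [fl2.1]) (by linarith [fl2.2])]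
    exact (eN s).strictMono ghat_neg_quarter_lt
  have hy : G₀ (eN s (-1 / 4) + 1) < eN s (-1 / 4) + 1 := by
    rw [g1.deg]; linarith
  have hzpos : 0 < eN s (-1 / 4) := by
    rw [← eN_bot s]
    apply (eN s).strictMono
    linarith
  have hiter : ∀ (j M : ℕ), s ≤ M → (1 / 4 + j : ℝ) < (M + 1) / 2 →
      F₀^[j] (eN s (1 / 4)) = eN M (1 / 4 + j) := by
    intro j
    induction j with
    | zero =>
      intro M hM _
      simp only [Function.iterate_zero, id, Nat.cast_zero, add_zero]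
      rw [eN_eq hM _ (by linarith) (by linarith)]
    | succ j ih =>
      intro M hM hj
      push_cast at hj
      have hj0 : (0 : ℝ) ≤ j := j.cast_nonneg
      have hM0 : (0 : ℝ) ≤ M := M.cast_nonneg
      rw [Function.iterate_succ_apply', ih M hM (by linarith),
        f5 M (1 / 4 + j) (by linarith) (by linarith) (by linarith) (by linarith)]
      congr 1
      push_cast
      ring
  refine obstruction (x₀ := eN s (1 / 4)) (y := eN s (-1 / 4) + 1) f1 g1 liftF liftG comm0 comm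
    f2 f3 g2 g3 hx hy (fun j => ?_) (fun n => ?_)
  · have hM : (1 / 4 + j : ℝ) < ((max s (2 * j + 1) : ℕ) + 1) / 2 := by
      have : ((2 * j + 1 : ℕ) : ℝ) ≤ (max s (2 * j + 1) : ℕ) := by exact_mod_cast le_max_right _ _
      push_cast at this ⊢
      linarith
    rw [hiter j (max s (2 * j + 1)) (le_max_left _ _) hM]
    have h9 : eN (max s (2 * j + 1)) (1 / 4 + j) ≤ 1 := by
      have h12 : (0 : ℝ) ≤ ((max s (2 * j + 1) : ℕ) : ℝ) := Nat.cast_nonneg _
      have h13 : (1 / 4 + j : ℝ) ≤ ((max s (2 * j + 1) : ℕ) : ℝ) + 1 := by linarith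
      exact ((eN _).monotone h13).trans (eN_top _).le
    linarith
  · set e := eN (s + n) with he
    obtain ⟨j, hj⟩ := exists_nat_gt (e.symm (eN s (-1 / 4) + 1) - e.symm (eN s (1 / 4)))
    refine ⟨j, ?_⟩
    have h10 := iterate_conj e j (eN s (1 / 4))
    rw [h10]
    have h11 : e (e.symm (eN s (-1 / 4) + 1)) < e (e.symm (eN s (1 / 4)) + j) :=
      e.strictMono (by linarith)
    rwa [OrderIso.apply_symm_apply] at h11

end CommC1
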