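import Mathlib

/-!
# The space of commuting pairs of orientation preserving `C^1` diffeomorphisms of the circle

Definitions for `MP_ac5a3a_an`.
-/

open Set Filter Topology

namespace CommC1

/-- The circle `ℝ / ℤ`. -/
abbrev Circ := AddCircle (1 : ℝ)

/-- `p = (f, a)` is an orientation preserving `C^1` diffeomorphism `f` of the circle together with
its derivative `a`: the function `a` is continuous and positive, and there is a lift
`F : ℝ → ℝ` of `f` with `F (x + 1) = F x + 1` and `F' (x) = a (x mod 1)` for all real `x`. -/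
def IsDiffeo (p : C(Circ, Circ) × C(Circ, ℝ)) : Prop :=
  (∀ x, 0 < p.2 x) ∧ ∃ F : ℝ → ℝ, (∀ x, F (x + 1) = F x + 1) ∧
    (∀ x : ℝ, HasDerivAt F (p.2 (x : Circ)) x) ∧ ∀ x : ℝ, ((F x : ℝ) : Circ) = p.1 (x : Circ)

/-- The space of orientation preserving `C^1` diffeomorphisms of the circle with the `C^1`
topology (uniform convergence of the map and of its derivative). -/
abbrev Diff1 := {p : C(Circ, Circ) × C(Circ, ℝ) // IsDiffeo p}

/-- The space of commuting pairs. -/
abbrev CommPairs :=
  {q : Diff1 × Diff1 // ∀ x : Circ, q.1.1.1 (q.2.1.1 x) = q.2.1.1 (q.1.1.1 x)}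

/-- `F` is a lift of an orientation preserving `C^1` diffeomorphism, with derivative `D`. -/
structure IsLift (F D : ℝ → ℝ) : Prop where
  deg : ∀ x, F (x + 1) = F x + 1
  pos : ∀ x, 0 < D x
  per : ∀ x, D (x + 1) = D x
  cont : Continuous D
  der : ∀ x, HasDerivAt F (D x) x

open Real in
/-- The trigonometric map, in the coordinate `s = - cot (2 π u)` it is `s ↦ s + sign (sin)`. -/
noncomputable def ghat (u : ℝ) : ℝ :=
  u + arctan (sin (2 * π * u) * |sin (2 * π * u)| /
    (1 - |sin (2 * π * u)| * cos (2 * π * u))) / (2 * π)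

open Real in
/-- The inverse of the derivative of `ghat`. -/
noncomputable def gam (u : ℝ) : ℝ :=
  1 + sin (2 * π * u) ^ 2 - 2 * (|sin (2 * π * u)| * cos (2 * π * u))

/-- The index of the `n`-th half integer interval. -/
def kap (N : ℕ) (n : ℤ) : ℤ :=
  min (min (n % (4 * N + 4)) (4 * N + 3 - n % (4 * N + 4))) N

/-- The amplitude. -/
noncomputable def amp (N : ℕ) (u : ℝ) : ℝ :=
  ((kap N ⌊2 * u⌋ : ℝ) + 1) * ((kap N ⌊2 * u⌋ : ℝ) + 2) / 2

open Real in
/-- The density. -/
noncomputable def dens (N : ℕ) (u : ℝ) : ℝ :=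
  (1 / 2) / (1 + (amp N u ^ 2 - 1) * sin (2 * π * u) ^ 2)

/-- The derivative cocycle of the translation. -/
noncomputable def cocF (N : ℕ) (u : ℝ) : ℝ := dens N (u + 1) * 1 / dens N u

/-- The derivative cocycle of `ghat`. -/
noncomputable def cocG (N : ℕ) (u : ℝ) : ℝ := dens N (ghat u) * (1 / gam u) / dens N u

end CommC1
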