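import Pool.Agent.Helper17.CommC1.Top

open Set Filter Topology

namespace CommC1

/-- Uniform limits from a Cauchy estimate. -/
theorem exists_unif_limit (D : ℕ → ℝ → ℝ) (b : ℕ → ℝ) (hb : Tendsto b atTop (𝓝 0))
    (h : ∀ n m, n ≤ m → ∀ x, |D n x - D m x| ≤ b n) :
    ∃ D₀ : ℝ → ℝ, TendstoUniformly D D₀ atTop ∧ ∀ x, Tendsto (fun n => D n x) atTop (𝓝 (D₀ x)) := by
  have hlim : ∀ x, ∃ l, Tendsto (fun n => D n x) atTop (𝓝 l) := fun x =>
    cauchySeq_tendsto_of_complete (cauchySeq_of_le_tendsto_0' b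
      (fun n m hnm => by rw [Real.dist_eq]; exact h n m hnm x) hb)
  choose D₀ hD₀ using hlim
  refine ⟨D₀, ?_, hD₀⟩
  rw [Metric.tendstoUniformly_iff]
  intro ε hε
  filter_upwards [hb.eventually_lt_const hε] with n hn x
  have h1 : |D n x - D₀ x| ≤ b n := by
    have h2 : Tendsto (fun m => |D n x - D m x|) atTop (𝓝 |D n x - D₀ x|) :=
      (tendsto_const_nhds.sub (hD₀ x)).abs
    refine le_of_tendsto h2 ?_
    filter_upwards [eventually_ge_atTop n] with m hm using h n m hm x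
  rw [dist_comm, Real.dist_eq]
  exact lt_of_le_of_lt h1 hn

/-- A sequence of lifts with uniformly Cauchy derivatives, bounded below, and constant at one
point converges to a lift. -/
theorem exists_limit_lift (F D : ℕ → ℝ → ℝ) (b : ℕ → ℝ) (hb : Tendsto b atTop (𝓝 0))
    (hF : ∀ n, IsLift (F n) (D n)) (h : ∀ n m, n ≤ m → ∀ x, |D n x - D m x| ≤ b n)
    (κ : ℝ) (hκ : 0 < κ) (hD : ∀ n x, κ ≤ D n x) (c : ℝ) (hc0 : 0 ≤ c) (hc1 : c ≤ 1)
    (hc : ∀ n m, F n c = F m c) :
    ∃ F₀ D₀ : ℝ → ℝ, IsLift F₀ D₀ ∧ TendstoUniformly F F₀ atTop ∧ TendstoUniformly D D₀ atTop ∧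
      ∀ x, Tendsto (fun n => F n x) atTop (𝓝 (F₀ x)) := by
  have hF' : ∀ n m, n ≤ m → ∀ x, |F n x - F m x| ≤ b n := by
    intro n m hnm x
    have hper : Function.Periodic (fun x => F n x - F m x) 1 := fun x => by
      show F n (x + 1) - F m (x + 1) = F n x - F m x
      rw [(hF n).deg, (hF m).deg]; ring
    obtain ⟨z, hz, hzx⟩ := hper.exists_mem_Ico₀ one_pos x
    have hzx' : F n x - F m x = F n z - F m z := hzx
    rw [hzx']
    have hder : ∀ t, HasDerivAt (fun x => F n x - F m x) (D n t - D m t) t := fun t =>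
      ((hF n).der t).sub ((hF m).der t)
    have hmv := Convex.norm_image_sub_le_of_norm_hasDerivWithin_le (s := univ)
      (f := fun x => F n x - F m x) (f' := fun t => D n t - D m t) (C := b n)
      (x := c) (y := z) (fun t _ => (hder t).hasDerivWithinAt)
      (fun t _ => by rw [Real.norm_eq_abs]; exact h n m hnm t) convex_univ (mem_univ _)
      (mem_univ _)
    simp only [hc n m, sub_self, sub_zero, Real.norm_eq_abs] at hmv
    have hzc : |z - c| ≤ 1 := by
      rw [abs_le]; constructor <;> linarith [hz.1, hz.2]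
    have hb0 : 0 ≤ b n := (abs_nonneg _).trans (h n m hnm 0)
    calc |F n z - F m z| ≤ b n * |z - c| := hmv
      _ ≤ b n * 1 := by gcongr
      _ = b n := mul_one _
  obtain ⟨D₀, hD1, hD2⟩ := exists_unif_limit D b hb h
  obtain ⟨F₀, hF1, hF2⟩ := exists_unif_limit F b hb hF'
  refine ⟨F₀, D₀, ⟨fun x => ?_, fun x => ?_, fun x => ?_, ?_, ?_⟩, hF1, hD1, hF2⟩
  · refine tendsto_nhds_unique (hF2 (x + 1)) ?_
    simp only [(hF _).deg]
    exact (hF2 x).add_const 1
  · exact lt_of_lt_of_le hκ (ge_of_tendsto' (hD2 x) fun n => hD n x)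
  · refine tendsto_nhds_unique (hD2 (x + 1)) ?_
    simp only [(hF _).per]
    exact hD2 x
  · exact hD1.continuous (Frequently.of_forall fun n => (hF n).cont)
  · exact hasDerivAt_of_tendstoUniformly hD1 (Eventually.of_forall fun n x => (hF n).der x) hF2

end CommC1
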