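import Pool.Agent.Helper17.CommC1.Defs

open Set Filter Topology

namespace CommC1

/-- The abstract obstruction. -/
theorem abs_obstruction {X : Type*} [TopologicalSpace X] (V : Set X) (F G : X → ℝ → ℝ) (x₀ y : ℝ)
    (hcont : ∀ j : ℕ, ContinuousOn (fun q => (F q)^[j] x₀) V)
    (hmono : ∀ q ∈ V, Monotone (F q))
    (hcomm : ∀ q ∈ V, ∀ x, F q (G q x) = G q (F q x))
    (hx : ∀ q ∈ V, x₀ < G q x₀) (hy : ∀ q ∈ V, G q y < y)
    {q₀ q₁ : X} (h0 : q₀ ∈ V) (h1 : q₁ ∈ V) (h0' : ∀ j, (F q₀)^[j] x₀ < y)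
    (h1' : ∃ j, y < (F q₁)^[j] x₀) : ¬ IsPreconnected V := by
  intro hV
  obtain ⟨j, hj⟩ := h1'
  have hsub := hV.intermediate_value h0 h1 (hcont j)
  obtain ⟨q, hq, e⟩ := hsub ⟨(h0' j).le, hj.le⟩
  have hc : Function.Commute (F q) (G q) := hcomm q hq
  have h2 : (F q)^[j] (G q x₀) = G q ((F q)^[j] x₀) := (hc.iterate_left j) x₀
  have h3 : (F q)^[j] x₀ ≤ (F q)^[j] (G q x₀) := (hmono q hq).iterate j (hx q hq).le
  have e' : (F q)^[j] x₀ = y := e
  rw [h2, e'] at h3
  exact absurd (hy q hq) (not_lt.mpr h3)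

/-- An integer valued continuous function on the line is constant. -/
theorem exists_int_const {k : ℝ → ℝ} (hk : Continuous k) (hint : ∀ x, ∃ n : ℤ, k x = n) :
    ∃ m : ℤ, ∀ x, k x = m := by
  obtain ⟨m, hm⟩ := hint 0
  refine ⟨m, fun x => ?_⟩
  by_contra hne
  obtain ⟨n, hn⟩ := hint x
  have hnm : n ≠ m := fun h => hne (by rw [hn, h])
  rcases lt_or_gt_of_ne hnm with h | h
  · have h' : (n : ℝ) + 1 ≤ m := by exact_mod_cast h
    obtain ⟨c, hc⟩ := mem_range_of_exists_le_of_exists_ge hk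
      ⟨x, (by rw [hn]; linarith : k x ≤ (n : ℝ) + 1 / 2)⟩ ⟨0, by rw [hm]; linarith⟩
    obtain ⟨r, hr⟩ := hint c
    rw [hr] at hc
    have : (2 * r : ℝ) = 2 * n + 1 := by linarith
    have : (2 * r : ℤ) = 2 * n + 1 := by exact_mod_cast this
    omega
  · have h' : (m : ℝ) + 1 ≤ n := by exact_mod_cast h
    obtain ⟨c, hc⟩ := mem_range_of_exists_le_of_exists_ge hk
      ⟨0, (by rw [hm]; linarith : k 0 ≤ (m : ℝ) + 1 / 2)⟩ ⟨x, by rw [hn]; linarith⟩
    obtain ⟨r, hr⟩ := hint c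
    rw [hr] at hc
    have : (2 * r : ℝ) = 2 * m + 1 := by linarith
    have : (2 * r : ℤ) = 2 * m + 1 := by exact_mod_cast this
    omega

theorem coe_eq_coe_iff (a b : ℝ) : ((a : ℝ) : Circ) = (b : Circ) ↔ ∃ n : ℤ, b = a + n := by
  constructor
  · intro h
    have : (((b - a : ℝ)) : Circ) = 0 := by
      rw [AddCircle.coe_sub, h, sub_self]
    obtain ⟨n, hn⟩ := (AddCircle.coe_eq_zero_iff (1 : ℝ)).mp this
    refine ⟨n, ?_⟩
    simp only [zsmul_eq_mul, mul_one] at hn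
    linarith
  · rintro ⟨n, rfl⟩
    rw [AddCircle.coe_add]
    have : ((n : ℝ) : Circ) = 0 := (AddCircle.coe_eq_zero_iff (1 : ℝ)).mpr ⟨n, by simp⟩
    rw [this, add_zero]

/-- Two continuous lifts differ by an integer. -/
theorem lift_unique {F F' : ℝ → ℝ} (hF : Continuous F) (hF' : Continuous F')
    (h : ∀ x, ((F x : ℝ) : Circ) = (F' x : Circ)) : ∃ m : ℤ, ∀ x, F' x = F x + m := by
  obtain ⟨m, hm⟩ := exists_int_const (k := fun x => F' x - F x) (hF'.sub hF) (fun x => by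
    obtain ⟨n, hn⟩ := (coe_eq_coe_iff _ _).mp (h x)
    exact ⟨n, by rw [hn]; ring⟩)
  exact ⟨m, fun x => by have := hm x; linarith⟩

/-- `F` is a lift of `d` at distance `< 1/4` from `F₀`. -/
def Good (F₀ : ℝ → ℝ) (d : Diff1) (F : ℝ → ℝ) : Prop :=
  (∀ x, F (x + 1) = F x + 1) ∧ (∀ x : ℝ, HasDerivAt F (d.1.2 (x : Circ)) x) ∧
    (∀ x : ℝ, ((F x : ℝ) : Circ) = d.1.1 (x : Circ)) ∧ ∀ x, |F x - F₀ x| < 1 / 4

theorem Good.continuous {F₀ F : ℝ → ℝ} {d : Diff1} (h : Good F₀ d F) : Continuous F :=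
  continuous_iff_continuousAt.mpr fun x => (h.2.1 x).continuousAt

theorem Good.strictMono {F₀ F : ℝ → ℝ} {d : Diff1} (h : Good F₀ d F) : StrictMono F :=
  strictMono_of_deriv_pos fun x => by rw [(h.2.1 x).deriv]; exact d.2.1 _

theorem norm_coe_of_le {t : ℝ} (ht : |t| ≤ 1 / 2) : ‖(t : Circ)‖ = |t| := by
  rw [AddCircle.norm_coe_eq_abs_iff (1 : ℝ) one_ne_zero]
  simpa using ht

theorem exists_good {F₀ : ℝ → ℝ} (hF₀ : Continuous F₀) (d₀ : C(Circ, Circ))
    (hd₀ : ∀ x : ℝ, ((F₀ x : ℝ) : Circ) = d₀ (x : Circ)) (d : Diff1)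
    (hd : dist d.1.1 d₀ < 1 / 4) : ∃ F, Good F₀ d F := by
  obtain ⟨F, hdeg, hder, hlift⟩ := d.2.2
  have hFc : Continuous F := continuous_iff_continuousAt.mpr fun x => (hder x).continuousAt
  have hk : Continuous fun x => F x - F₀ x := hFc.sub hF₀
  have hn : ∀ x, |(F x - F₀ x) - round (F x - F₀ x)| < 1 / 4 := by
    intro x
    have h1 : dist (d.1.1 (x : Circ)) (d₀ (x : Circ)) < 1 / 4 :=
      lt_of_le_of_lt (ContinuousMap.dist_apply_le_dist _) hd
    rw [← hlift x, ← hd₀ x, dist_eq_norm, ← AddCircle.coe_sub] at h1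
    have h2 := UnitAddCircle.norm_eq (x := F x - F₀ x)
    have h3 : ‖((F x - F₀ x : ℝ) : Circ)‖ = |(F x - F₀ x) - round (F x - F₀ x)| := h2
    rwa [h3] at h1
  set m := round (F 0 - F₀ 0) with hm
  have hall : ∀ x, |(F x - F₀ x) - m| < 1 / 4 := by
    intro x
    by_contra hx
    rw [not_lt] at hx
    have hk' : Continuous fun x => |(F x - F₀ x) - m| := (hk.sub continuous_const).abs
    obtain ⟨c, hc⟩ := mem_range_of_exists_le_of_exists_ge hk' ⟨0, (hn 0).le⟩ ⟨x, hx⟩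
    have h4 := hn c
    have hc' : |(F c - F₀ c) - m| = 1 / 4 := hc
    have h5 : |((m - round (F c - F₀ c) : ℤ) : ℝ)| < 1 := by
      push_cast
      have h8 := abs_sub_le ((m : ℝ)) (F c - F₀ c) (round (F c - F₀ c))
      have h9 : |(m : ℝ) - (F c - F₀ c)| = 1 / 4 := by rw [abs_sub_comm]; exact hc'
      linarith
    have h6 : |m - round (F c - F₀ c)| < 1 := by exact_mod_cast h5
    have h7 : m = round (F c - F₀ c) := by
      rw [Int.abs_lt_one_iff] at h6
      omega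
    rw [h7] at hc'
    linarith
  refine ⟨fun x => F x - m, fun x => by simp only [hdeg]; ring, fun x => (hder x).sub_const _,
    fun x => ?_, fun x => ?_⟩
  · rw [← hlift x]
    exact ((coe_eq_coe_iff _ _).mpr ⟨m, by ring⟩)
  · have := hall x
    have e : F x - m - F₀ x = F x - F₀ x - m := by ring
    show |F x - m - F₀ x| < 1 / 4
    rwa [e]

/-- Two good lifts are as close as the circle maps. -/
theorem Good.abs_sub_le {F₀ F F' : ℝ → ℝ} {d d' : Diff1} (h : Good F₀ d F) (h' : Good F₀ d' F')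
    (x : ℝ) : |F x - F' x| ≤ dist d.1.1 d'.1.1 := by
  have h1 : |F x - F' x| ≤ 1 / 2 := by
    have := _root_.abs_sub_le (F x) (F₀ x) (F' x)
    have h2 := h.2.2.2 x
    have h3 := h'.2.2.2 x
    rw [abs_sub_comm] at h3
    linarith
  rw [← norm_coe_of_le h1, AddCircle.coe_sub, h.2.2.1, h'.2.2.1, ← dist_eq_norm]
  exact ContinuousMap.dist_apply_le_dist _

theorem Good.iterate_tendsto {X : Type*} [TopologicalSpace X] {F₀ : ℝ → ℝ} (V : Set X)
    (δ : X → Diff1) (hδ : ContinuousOn δ V) (F : X → ℝ → ℝ) (hF : ∀ q ∈ V, Good F₀ (δ q) (F q))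
    (x₀ : ℝ) (j : ℕ) : ContinuousOn (fun q => (F q)^[j] x₀) V := by
  intro q hq
  have hdist : Tendsto (fun p => dist (δ p).1.1 (δ q).1.1) (𝓝[V] q) (𝓝 0) := by
    have h1 : Tendsto (fun p => (δ p).1.1) (𝓝[V] q) (𝓝 (δ q).1.1) := by
      have h2 : Continuous fun d : Diff1 => d.1.1 := continuous_fst.comp continuous_subtype_val
      exact (h2.tendsto _).comp (hδ q hq)
    exact tendsto_iff_dist_tendsto_zero.mp h1
  induction j with
  | zero => exact continuousWithinAt_const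
  | succ j ih =>
    have hcont : Continuous (F q) := (hF q hq).continuous
    have h1 : Tendsto (fun p => F q ((F p)^[j] x₀)) (𝓝[V] q) (𝓝 (F q ((F q)^[j] x₀))) :=
      (hcont.tendsto _).comp ih
    have h2 : Tendsto (fun p => F p ((F p)^[j] x₀) - F q ((F p)^[j] x₀)) (𝓝[V] q) (𝓝 0) := by
      refine squeeze_zero_norm' ?_ hdist
      filter_upwards [self_mem_nhdsWithin] with p hp
      rw [Real.norm_eq_abs]
      exact (hF p hp).abs_sub_le (hF q hq) _
    have h3 := h2.add h1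
    simp only [sub_add_cancel, zero_add] at h3
    show Tendsto (fun p => (F p)^[j + 1] x₀) (𝓝[V] q) (𝓝 ((F q)^[j + 1] x₀))
    simpa only [Function.iterate_succ_apply'] using h3

/-- Good lifts of a commuting pair commute as soon as one of them has a fixed point. -/
theorem good_commute {F G : ℝ → ℝ} (hFc : Continuous F) (hGc : Continuous G)
    (hGm : StrictMono G) (hGd : ∀ x, G (x + 1) = G x + 1)
    (hcomm : ∀ x, ((F (G x) : ℝ) : Circ) = (G (F x) : Circ)) {x₀ y : ℝ} (hx : x₀ < G x₀)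
    (hy : G y < y) (x : ℝ) : F (G x) = G (F x) := by
  obtain ⟨m, hm⟩ := lift_unique (hGc.comp hFc) (hFc.comp hGc) (fun x => (hcomm x).symm)
  simp only [Function.comp] at hm
  have hGc' : Continuous fun x => G x - x := hGc.sub continuous_id
  obtain ⟨z, hz⟩ := mem_range_of_exists_le_of_exists_ge hGc'
    ⟨y, (by linarith : G y - y ≤ 0)⟩ ⟨x₀, by linarith⟩
  have hz' : G z = z := by
    have : G z - z = 0 := hz
    linarith
  have hk : ∀ k : ℤ, G (z + k) = z + k := by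
    intro k
    induction k with
    | zero => simpa using hz'
    | succ i ih =>
      have : (z + ((i : ℤ) + 1 : ℤ) : ℝ) = z + (i : ℤ) + 1 := by push_cast; ring
      rw [this, hGd, ih]
    | pred i ih =>
      have e : (z + (-(i : ℤ) : ℤ) : ℝ) = z + (-(i : ℤ) - 1 : ℤ) + 1 := by push_cast; ring
      rw [e, hGd] at ih
      linarith
  set w := F z with hw
  have hGw : G w = w - m := by
    have := hm z
    rw [hz', ← hw] at this
    linarith
  have h1 : z + ⌊w - z⌋ ≤ w := by have := Int.floor_le (w - z); linarith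
  have h2 : w < z + (⌊w - z⌋ + 1 : ℤ) := by
    have := Int.lt_floor_add_one (w - z); push_cast; linarith
  have h3 : z + ⌊w - z⌋ ≤ G w := by rw [← hk]; exact hGm.monotone h1
  have h4 : G w < z + (⌊w - z⌋ + 1 : ℤ) := by rw [← hk]; exact hGm h2
  rw [hGw] at h3 h4
  push_cast at h4 h2
  have h5 : (m : ℝ) < 1 := by linarith
  have h6 : (-1 : ℝ) < m := by linarith
  have h5' : m < 1 := by exact_mod_cast h5
  have h6' : -1 < m := by exact_mod_cast h6
  have : m = 0 := by omega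
  rw [hm x, this]
  simp

end CommC1
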