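import Pool.Agent.Helper17.CommC1.Top

/-!
Checks that `IsDiffeo` means what it should: such maps are bijections of the circle with a unique
derivative, and the identity and compositions satisfy it.
-/

open Set Filter Topology

namespace CommC1

theorem isDiffeo_isLift {p : C(Circ, Circ) × C(Circ, ℝ)} (h : IsDiffeo p) :
    ∃ F : ℝ → ℝ, IsLift F (fun x => p.2 (x : Circ)) ∧ ∀ x : ℝ, ((F x : ℝ) : Circ) = p.1 (x : Circ) := by
  obtain ⟨hpos, F, hdeg, hder, hl⟩ := h
  refine ⟨F, ⟨hdeg, fun x => hpos _, fun x => ?_, ?_, hder⟩, hl⟩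
  · have : (((x + 1 : ℝ)) : Circ) = (x : Circ) :=
      ((coe_eq_coe_iff _ _).mpr ⟨1, by push_cast; ring⟩).symm
    show p.2 ((x + 1 : ℝ) : Circ) = p.2 (x : Circ)
    rw [this]
  · exact p.2.continuous.comp (AddCircle.continuous_mk' (1 : ℝ))

theorem isDiffeo_bijective {p : C(Circ, Circ) × C(Circ, ℝ)} (h : IsDiffeo p) :
    Function.Bijective p.1 := by
  obtain ⟨F, hF, hl⟩ := isDiffeo_isLift h
  have hk : ∀ (k : ℤ) (x : ℝ), F (x + k) = F x + k := by
    intro k x
    induction k with
    | zero => simp
    | succ i ih =>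
      have : (x + ((i : ℤ) + 1 : ℤ) : ℝ) = x + (i : ℤ) + 1 := by push_cast; ring
      rw [this, hF.deg, ih]; push_cast; ring
    | pred i ih =>
      have e : (x + (-(i : ℤ) : ℤ) : ℝ) = x + (-(i : ℤ) - 1 : ℤ) + 1 := by push_cast; ring
      rw [e, hF.deg] at ih
      push_cast at ih ⊢
      linarith
  constructor
  · intro a b hab
    induction a using QuotientAddGroup.induction_on with
    | H x =>
      induction b using QuotientAddGroup.induction_on with
      | H y =>
        have h1 : ((F x : ℝ) : Circ) = (F y : Circ) := by rw [hl, hl]; exact hab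
        obtain ⟨n, hn⟩ := (coe_eq_coe_iff _ _).mp h1
        rw [← hk] at hn
        have := hF.strictMono.injective hn
        exact (coe_eq_coe_iff _ _).mpr ⟨n, this⟩
  · intro b
    induction b using QuotientAddGroup.induction_on with
    | H y =>
      have hcont := hF.continuous
      have h0 : F (⌊y - F 0⌋ : ℤ) ≤ y := by
        have := hk ⌊y - F 0⌋ 0
        rw [zero_add] at this
        rw [this]
        have := Int.floor_le (y - F 0)
        linarith
      have h1 : y ≤ F ((⌊y - F 0⌋ + 1 : ℤ)) := by
        have := hk (⌊y - F 0⌋ + 1) 0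
        rw [zero_add] at this
        rw [this]
        have := Int.lt_floor_add_one (y - F 0)
        push_cast
        linarith
      obtain ⟨x, hx⟩ := mem_range_of_exists_le_of_exists_ge hcont ⟨_, h0⟩ ⟨_, h1⟩
      exact ⟨(x : Circ), by rw [← hl, hx]⟩

theorem isDiffeo_deriv_unique {f : C(Circ, Circ)} {a b : C(Circ, ℝ)} (h : IsDiffeo (f, a))
    (h' : IsDiffeo (f, b)) : a = b := by
  obtain ⟨F, hF, hl⟩ := isDiffeo_isLift h
  obtain ⟨G, hG, hl'⟩ := isDiffeo_isLift h'
  obtain ⟨m, hm⟩ := lift_unique hF.continuous hG.continuous (fun x => by rw [hl, hl'])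
  ext x
  induction x using QuotientAddGroup.induction_on with
  | H z =>
    have h1 : HasDerivAt G (a (z : Circ)) z := by
      have h2 : G = fun x => F x + m := funext hm
      rw [h2]
      exact (hF.der z).add_const _
    exact h1.unique (hG.der z)

theorem isDiffeo_id : IsDiffeo (ContinuousMap.id Circ, ContinuousMap.const Circ 1) :=
  ⟨fun _ => one_pos, id, fun _ => rfl, fun x => hasDerivAt_id x, fun _ => rfl⟩

end CommC1
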