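import Pool.Agent.Helper17.CommC1.Obs

open Set Filter Topology

namespace CommC1

theorem IsLift.continuous {F D : ℝ → ℝ} (h : IsLift F D) : Continuous F :=
  continuous_iff_continuousAt.mpr fun x => (h.der x).continuousAt

theorem IsLift.strictMono {F D : ℝ → ℝ} (h : IsLift F D) : StrictMono F :=
  strictMono_of_deriv_pos fun x => by rw [(h.der x).deriv]; exact h.pos _

/-- A periodic continuous function descends to a continuous function on the circle. -/
theorem continuous_periodic_lift {Y : Type*} [TopologicalSpace Y] {f : ℝ → Y}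
    (hf : Function.Periodic f 1) (hc : Continuous f) : Continuous (hf.lift : Circ → Y) := by
  have hq : Topology.IsQuotientMap (fun x : ℝ => (x : Circ)) :=
    QuotientAddGroup.isQuotientMap_mk _
  rw [hq.continuous_iff]
  exact hc

theorem exists_diff1 {F D : ℝ → ℝ} (h : IsLift F D) :
    ∃ p : Diff1, (∀ x : ℝ, p.1.1 (x : Circ) = (F x : Circ)) ∧
      ∀ x : ℝ, p.1.2 (x : Circ) = D x := by
  have hper : Function.Periodic (fun x : ℝ => (F x : Circ)) 1 := fun x => by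
    show ((F (x + 1) : ℝ) : Circ) = ((F x : ℝ) : Circ)
    rw [h.deg]
    exact ((coe_eq_coe_iff _ _).mpr ⟨1, by push_cast; ring⟩).symm
  have hper' : Function.Periodic D 1 := h.per
  have hFc : Continuous fun x : ℝ => (F x : Circ) :=
    (AddCircle.continuous_mk' (1 : ℝ)).comp h.continuous
  let f : C(Circ, Circ) := ⟨hper.lift, continuous_periodic_lift hper hFc⟩
  let a : C(Circ, ℝ) := ⟨hper'.lift, continuous_periodic_lift hper' h.cont⟩
  have hf : ∀ x : ℝ, f (x : Circ) = (F x : Circ) := fun x => rfl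
  have ha : ∀ x : ℝ, a (x : Circ) = D x := fun x => rfl
  refine ⟨⟨(f, a), ?_, F, h.deg, fun x => ?_, fun x => rfl⟩, hf, ha⟩
  · intro x
    induction x using QuotientAddGroup.induction_on with
    | H z => exact h.pos z
  · exact h.der x

theorem exists_pair {F D G E : ℝ → ℝ} (hF : IsLift F D) (hG : IsLift G E)
    (hc : ∀ x, F (G x) = G (F x)) :
    ∃ q : CommPairs, (∀ x : ℝ, q.1.1.1.1 (x : Circ) = (F x : Circ)) ∧
      (∀ x : ℝ, q.1.1.1.2 (x : Circ) = D x) ∧ (∀ x : ℝ, q.1.2.1.1 (x : Circ) = (G x : Circ)) ∧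
      (∀ x : ℝ, q.1.2.1.2 (x : Circ) = E x) := by
  obtain ⟨p, hp1, hp2⟩ := exists_diff1 hF
  obtain ⟨r, hr1, hr2⟩ := exists_diff1 hG
  refine ⟨⟨(p, r), fun x => ?_⟩, hp1, hp2, hr1, hr2⟩
  induction x using QuotientAddGroup.induction_on with
  | H z =>
    show p.1.1 (r.1.1 (z : Circ)) = r.1.1 (p.1.1 (z : Circ))
    rw [hr1, hp1, hp1, hr1, hc]

theorem tendsto_map_of_uniform {f : ℕ → C(Circ, Circ)} {f₀ : C(Circ, Circ)} {F : ℕ → ℝ → ℝ}
    {F₀ : ℝ → ℝ} (hf : ∀ n (x : ℝ), f n (x : Circ) = (F n x : Circ))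
    (hf₀ : ∀ x : ℝ, f₀ (x : Circ) = (F₀ x : Circ)) (h : TendstoUniformly F F₀ atTop) :
    Tendsto f atTop (𝓝 f₀) := by
  rw [ContinuousMap.tendsto_iff_tendstoUniformly, Metric.tendstoUniformly_iff]
  rw [Metric.tendstoUniformly_iff] at h
  intro ε hε
  filter_upwards [h ε hε] with n hn x
  induction x using QuotientAddGroup.induction_on with
  | H z =>
    have h1 : dist (f₀ (z : Circ)) (f n (z : Circ)) ≤ dist (F₀ z) (F n z) := by
      rw [hf, hf₀, dist_eq_norm, dist_eq_norm, ← AddCircle.coe_sub]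
      exact QuotientAddGroup.norm_mk_le_norm
    exact lt_of_le_of_lt h1 (hn z)

theorem tendsto_deriv_of_uniform {f : ℕ → C(Circ, ℝ)} {f₀ : C(Circ, ℝ)} {F : ℕ → ℝ → ℝ}
    {F₀ : ℝ → ℝ} (hf : ∀ n (x : ℝ), f n (x : Circ) = F n x)
    (hf₀ : ∀ x : ℝ, f₀ (x : Circ) = F₀ x) (h : TendstoUniformly F F₀ atTop) :
    Tendsto f atTop (𝓝 f₀) := by
  rw [ContinuousMap.tendsto_iff_tendstoUniformly, Metric.tendstoUniformly_iff]
  rw [Metric.tendstoUniformly_iff] at h
  intro ε hε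
  filter_upwards [h ε hε] with n hn x
  induction x using QuotientAddGroup.induction_on with
  | H z =>
    have := hn z
    rw [← hf, ← hf₀] at this
    exact this

/-- The topological part of the construction. -/
theorem obstruction {F₀ D₀ G₀ E₀ : ℝ → ℝ} {F D G E : ℕ → ℝ → ℝ}
    (hF₀ : IsLift F₀ D₀) (hG₀ : IsLift G₀ E₀) (hF : ∀ n, IsLift (F n) (D n))
    (hG : ∀ n, IsLift (G n) (E n))
    (hc₀ : ∀ x, F₀ (G₀ x) = G₀ (F₀ x)) (hc : ∀ n x, F n (G n x) = G n (F n x))
    (tF : TendstoUniformly F F₀ atTop) (tD : TendstoUniformly D D₀ atTop)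
    (tG : TendstoUniformly G G₀ atTop) (tE : TendstoUniformly E E₀ atTop)
    {x₀ y : ℝ} (hx : x₀ < G₀ x₀) (hy : G₀ y < y) (h0 : ∀ j, F₀^[j] x₀ < y)
    (h1 : ∀ n, ∃ j, y < (F n)^[j] x₀) :
    ∃ q : CommPairs, ∃ U ∈ 𝓝 q, ∀ V ∈ 𝓝 q, V ⊆ U → ¬ IsPreconnected V := by
  obtain ⟨q₀, a1, a2, a3, a4⟩ := exists_pair hF₀ hG₀ hc₀
  choose q b1 b2 b3 b4 using fun n => exists_pair (hF n) (hG n) (hc n)
  -- convergence
  have hq : Tendsto q atTop (𝓝 q₀) := by
    rw [tendsto_subtype_rng]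
    refine Tendsto.prodMk_nhds ?_ ?_
    · rw [tendsto_subtype_rng]
      exact Tendsto.prodMk_nhds (tendsto_map_of_uniform b1 a1 tF)
        (tendsto_deriv_of_uniform b2 a2 tD)
    · rw [tendsto_subtype_rng]
      exact Tendsto.prodMk_nhds (tendsto_map_of_uniform b3 a3 tG)
        (tendsto_deriv_of_uniform b4 a4 tE)
  -- the neighbourhood
  set ε := min (1 / 4) (min (G₀ x₀ - x₀) (y - G₀ y)) with hε
  have hεpos : 0 < ε := by
    refine lt_min (by norm_num) (lt_min (by linarith) (by linarith))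
  have hε1 : ε ≤ 1 / 4 := min_le_left _ _
  have hε2 : ε ≤ G₀ x₀ - x₀ := (min_le_right _ _).trans (min_le_left _ _)
  have hε3 : ε ≤ y - G₀ y := (min_le_right _ _).trans (min_le_right _ _)
  let U : Set CommPairs := {p | dist p.1.1.1.1 q₀.1.1.1.1 < ε ∧ dist p.1.2.1.1 q₀.1.2.1.1 < ε}
  have cf : Continuous fun p : CommPairs => p.1.1 := continuous_fst.comp continuous_subtype_val
  have cg : Continuous fun p : CommPairs => p.1.2 := continuous_snd.comp continuous_subtype_val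
  have cd : Continuous fun d : Diff1 => d.1.1 := continuous_fst.comp continuous_subtype_val
  have hU : U ∈ 𝓝 q₀ := by
    have o1 : IsOpen {p : CommPairs | dist p.1.1.1.1 q₀.1.1.1.1 < ε} :=
      isOpen_lt ((cd.comp cf).dist continuous_const) continuous_const
    have o2 : IsOpen {p : CommPairs | dist p.1.2.1.1 q₀.1.2.1.1 < ε} :=
      isOpen_lt ((cd.comp cg).dist continuous_const) continuous_const
    exact (o1.inter o2).mem_nhds ⟨by simpa using hεpos, by simpa using hεpos⟩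
  -- good lifts
  have gF : ∀ p : CommPairs, p ∈ U → ∃ f, Good F₀ p.1.1 f := fun p hp =>
    exists_good hF₀.continuous q₀.1.1.1.1 (fun x => (a1 x).symm) p.1.1 (lt_of_lt_of_le hp.1 hε1)
  have gG : ∀ p : CommPairs, p ∈ U → ∃ f, Good G₀ p.1.2 f := fun p hp =>
    exists_good hG₀.continuous q₀.1.2.1.1 (fun x => (a3 x).symm) p.1.2 (lt_of_lt_of_le hp.2 hε1)
  have gF' : ∀ p : CommPairs, ∃ f, p ∈ U → Good F₀ p.1.1 f := fun p => by
    by_cases hp : p ∈ U
    · obtain ⟨f, hf⟩ := gF p hp; exact ⟨f, fun _ => hf⟩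
    · exact ⟨id, fun h => absurd h hp⟩
  have gG' : ∀ p : CommPairs, ∃ f, p ∈ U → Good G₀ p.1.2 f := fun p => by
    by_cases hp : p ∈ U
    · obtain ⟨f, hf⟩ := gG p hp; exact ⟨f, fun _ => hf⟩
    · exact ⟨id, fun h => absurd h hp⟩
  choose Φ hΦ using gF'
  choose Γ hΓ using gG'
  have good0F : Good F₀ q₀.1.1 F₀ := ⟨hF₀.deg, fun x => by rw [a2]; exact hF₀.der x,
    fun x => (a1 x).symm, fun x => by simp⟩
  have good0G : Good G₀ q₀.1.2 G₀ := ⟨hG₀.deg, fun x => by rw [a4]; exact hG₀.der x,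
    fun x => (a3 x).symm, fun x => by simp⟩
  refine ⟨q₀, U, hU, fun V hV hVU => ?_⟩
  have h0V : q₀ ∈ V := mem_of_mem_nhds hV
  have hev : ∀ᶠ n in atTop, q n ∈ V := hq hV
  have hevF : ∀ᶠ n in atTop, ∀ x, dist (F₀ x) (F n x) < 1 / 4 :=
    (Metric.tendstoUniformly_iff.mp tF) (1 / 4) (by norm_num)
  obtain ⟨n, hnV, hnF⟩ := (hev.and hevF).exists
  have goodn : Good F₀ (q n).1.1 (F n) := ⟨(hF n).deg, fun x => by rw [b2]; exact (hF n).der x,
    fun x => (b1 n x).symm, fun x => by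
      have := hnF x
      rwa [dist_comm, Real.dist_eq] at this⟩
  have eq_of_good : ∀ {K f f' : ℝ → ℝ} {d : Diff1}, Good K d f → Good K d f' → f = f' := by
    intro K f f' d h h'
    funext x
    have := h.abs_sub_le h' x
    rw [dist_self] at this
    have := abs_nonpos_iff.mp this
    linarith
  have e0 : Φ q₀ = F₀ := eq_of_good (hΦ q₀ (hVU h0V)) good0F
  have en : Φ (q n) = F n := eq_of_good (hΦ (q n) (hVU hnV)) goodn
  have hGx : ∀ p ∈ V, x₀ < Γ p x₀ := fun p hp => by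
    have h2 := (hΓ p (hVU hp)).abs_sub_le good0G x₀
    have h3 := (hVU hp).2
    have h4 := neg_abs_le (Γ p x₀ - G₀ x₀)
    linarith
  have hGy : ∀ p ∈ V, Γ p y < y := fun p hp => by
    have h2 := (hΓ p (hVU hp)).abs_sub_le good0G y
    have h3 := (hVU hp).2
    have h4 := le_abs_self (Γ p y - G₀ y)
    linarith
  refine abs_obstruction V Φ Γ x₀ y (fun j => ?_) (fun p hp => (hΦ p (hVU hp)).strictMono.monotone)
    (fun p hp x => ?_) hGx hGy h0V hnV (by rw [e0]; exact h0) (by rw [en]; exact h1 n)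
  · exact Good.iterate_tendsto V (fun p : CommPairs => p.1.1) cf.continuousOn Φ
      (fun p hp => hΦ p (hVU hp)) x₀ j
  · have hf := hΦ p (hVU hp)
    have hg := hΓ p (hVU hp)
    refine good_commute hf.continuous hg.continuous hg.strictMono hg.1 (fun z => ?_)
      (hGx p hp) (hGy p hp) x
    rw [hf.2.2.1, hg.2.2.1, hg.2.2.1, hf.2.2.1]
    exact p.2 _

end CommC1
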